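import Mathlib
import Pool.Agent.Helper549.Tri.SqDefs
import Pool.Agent.Helper549.Tri.Setup
set_option autoImplicit false
noncomputable section
open scoped BigOperators

namespace Pool.Agent.V1146.SQ.Iso
open Pool.Agent.Helper549.Tri

local instance : Fact (Module.finrank ℝ (EuclideanSpace ℝ (Fin 2)) = 2) := ⟨by simp⟩

abbrev E := EuclideanSpace ℝ (Fin 2)

theorem hull_iff (a b c x : E) : x ∈ convexHull ℝ (Set.range ![a, b, c]) ↔
    ∃ α β γ : ℝ, 0 ≤ α ∧ 0 ≤ β ∧ 0 ≤ γ ∧ α + β + γ = 1 ∧ α • a + β • b + γ • c = x := by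
  constructor
  · intro hx
    obtain ⟨w, hw, hw1, hw2⟩ := Setup.mem_hull3 _ x hx
    rw [Fin.sum_univ_three] at hw1 hw2
    exact ⟨w 0, w 1, w 2, hw 0, hw 1, hw 2, hw1, by simpa using hw2⟩
  · rintro ⟨α, β, γ, h0, h1, h2, h3, rfl⟩
    have ha : a ∈ convexHull ℝ (Set.range ![a, b, c]) := subset_convexHull ℝ _ ⟨0, rfl⟩
    have hb : b ∈ convexHull ℝ (Set.range ![a, b, c]) := subset_convexHull ℝ _ ⟨1, rfl⟩
    have hc : c ∈ convexHull ℝ (Set.range ![a, b, c]) := subset_convexHull ℝ _ ⟨2, rfl⟩
    have hconv := convex_convexHull ℝ (Set.range ![a, b, c])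
    have := hconv.sum_mem (t := Finset.univ) (w := ![α, β, γ]) (z := ![a, b, c]) (by
      intro i _
      fin_cases i
      · exact h0
      · exact h1
      · exact h2) (by rw [Fin.sum_univ_three]; simpa using h3) (by
      intro i _
      fin_cases i
      · exact ha
      · exact hb
      · exact hc)
    rw [Fin.sum_univ_three] at this
    simpa using this

theorem indep (a b c m : E) (hT : AffineIndependent ℝ ![a, b, c])
    (hm : m = (1 / 2 : ℝ) • (b + c)) :
    AffineIndependent ℝ ![a, b, m] ∧ AffineIndependent ℝ ![a, c, m] := by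
  constructor
  · rw [affineIndependent_iff_of_fintype]
    intro w hw hsum
    rw [Finset.univ.weightedVSub_eq_linear_combination hw, Fin.sum_univ_three] at hsum
    rw [Fin.sum_univ_three] at hw
    simp only [Matrix.cons_val_zero, Matrix.cons_val_one, Matrix.cons_val] at hsum
    have h1 := (affineIndependent_iff.1 hT) Finset.univ ![w 0, w 1 + w 2 / 2, w 2 / 2] (by
      rw [Fin.sum_univ_three]
      simp only [Matrix.cons_val_zero, Matrix.cons_val_one, Matrix.cons_val]
      linarith) (by
      rw [Fin.sum_univ_three]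
      simp only [Matrix.cons_val_zero, Matrix.cons_val_one, Matrix.cons_val]
      rw [← hsum, hm]
      module)
    have e0 := h1 0 (Finset.mem_univ _)
    have e1 := h1 1 (Finset.mem_univ _)
    have e2 := h1 2 (Finset.mem_univ _)
    simp only [Matrix.cons_val_zero, Matrix.cons_val_one, Matrix.cons_val] at e0 e1 e2
    intro i
    fin_cases i
    · exact e0
    · show w 1 = 0
      linarith
    · show w 2 = 0
      linarith
  · rw [affineIndependent_iff_of_fintype]
    intro w hw hsum
    rw [Finset.univ.weightedVSub_eq_linear_combination hw, Fin.sum_univ_three] at hsum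
    rw [Fin.sum_univ_three] at hw
    simp only [Matrix.cons_val_zero, Matrix.cons_val_one, Matrix.cons_val] at hsum
    have h1 := (affineIndependent_iff.1 hT) Finset.univ ![w 0, w 2 / 2, w 1 + w 2 / 2] (by
      rw [Fin.sum_univ_three]
      simp only [Matrix.cons_val_zero, Matrix.cons_val_one, Matrix.cons_val]
      linarith) (by
      rw [Fin.sum_univ_three]
      simp only [Matrix.cons_val_zero, Matrix.cons_val_one, Matrix.cons_val]
      rw [← hsum, hm]
      module)
    have e0 := h1 0 (Finset.mem_univ _)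
    have e1 := h1 1 (Finset.mem_univ _)
    have e2 := h1 2 (Finset.mem_univ _)
    simp only [Matrix.cons_val_zero, Matrix.cons_val_one, Matrix.cons_val] at e0 e1 e2
    intro i
    fin_cases i
    · exact e0
    · show w 1 = 0
      linarith
    · show w 2 = 0
      linarith

theorem cut_two (a b c : E) (hT : AffineIndependent ℝ ![a, b, c]) (h : dist a b = dist a c) :
    CanCut ![a, b, c] 2 := by
  obtain ⟨m, hm⟩ : ∃ m : E, m = (1 / 2 : ℝ) • (b + c) := ⟨_, rfl⟩
  obtain ⟨v, hv⟩ : ∃ v : E, v = c - b := ⟨_, rfl⟩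
  have hbc : b ≠ c := by
    intro e
    have := hT.injective (a₁ := 1) (a₂ := 2) (by simpa using e)
    exact absurd this (by decide)
  have hv0 : v ≠ 0 := by rw [hv]; exact sub_ne_zero.2 hbc.symm
  have hvv : 0 < inner ℝ v v := real_inner_self_pos.2 hv0
  have hort : inner ℝ v (a - m) = 0 := by
    rw [dist_eq_norm, dist_eq_norm] at h
    have e1 : a - b = (a - m) + (1 / 2 : ℝ) • v := by rw [hm, hv]; module
    have e2 : a - c = (a - m) - (1 / 2 : ℝ) • v := by rw [hm, hv]; module
    rw [e1, e2] at h
    have h1 : ‖(a - m) + (1 / 2 : ℝ) • v‖ ^ 2 = ‖(a - m) - (1 / 2 : ℝ) • v‖ ^ 2 := by rw [h]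
    rw [norm_add_sq_real (a - m), norm_sub_sq_real (a - m) ((1 / 2 : ℝ) • v), inner_smul_right] at h1
    rw [real_inner_comm]
    linarith
  obtain ⟨R, hR⟩ : ∃ R : E ≃ₗᵢ[ℝ] E, R = (Submodule.span ℝ {v})ᗮ.reflection := ⟨_, rfl⟩
  have hRv : R v = -v := by
    rw [hR]; exact Submodule.reflection_orthogonalComplement_singleton_eq_neg v
  have hRa : R (a - m) = a - m := by
    rw [hR]
    apply Submodule.reflection_mem_subspace_eq_self
    rw [Submodule.mem_orthogonal_singleton_iff_inner_right]
    exact hort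
  obtain ⟨f, hf⟩ : ∃ f : E ≃ᵃⁱ[ℝ] E, ∀ x, f x = R (x - m) + m := by
    refine ⟨((AffineIsometryEquiv.vaddConst ℝ m).symm.trans R.toAffineIsometryEquiv).trans
      (AffineIsometryEquiv.vaddConst ℝ m), fun x => ?_⟩
    simp
  have hfm : f m = m := by rw [hf]; simp
  have hfa : f a = a := by rw [hf, hRa]; simp
  have hfb : f b = c := by
    rw [hf]
    have e : b - m = (-(1 / 2) : ℝ) • v := by rw [hm, hv]; module
    rw [e, map_smul, hRv, hm, hv]
    module
  have hfc : f c = b := by
    rw [hf]
    have e : c - m = ((1 / 2) : ℝ) • v := by rw [hm, hv]; module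
    rw [e, map_smul, hRv, hm, hv]
    module
  have himg : ∀ x y z : E, f '' convexHull ℝ (Set.range ![x, y, z]) =
      convexHull ℝ (Set.range ![f x, f y, f z]) := by
    intro x y z
    have h1 := f.toAffineEquiv.toAffineMap.image_convexHull (Set.range ![x, y, z])
    have h2 : Set.range ![f x, f y, f z] = f '' Set.range ![x, y, z] := by
      rw [← Set.range_comp]
      congr 1
      funext i
      fin_cases i <;> rfl
    rw [h2]
    exact h1
  have hb1 : inner ℝ v (b - m) < 0 := by
    have e : b - m = (-(1 / 2) : ℝ) • v := by rw [hm, hv]; module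
    rw [e, inner_smul_right]
    linarith
  have hc1 : 0 < inner ℝ v (c - m) := by
    have e : c - m = ((1 / 2) : ℝ) • v := by rw [hm, hv]; module
    rw [e, inner_smul_right]
    linarith
  have hi : ∀ s : Set E, ∀ x ∈ interior s, ∀ w : E, ∃ t : ℝ, 0 < t ∧ x + t • w ∈ s := by
    intro s x hx w
    have h1 : Filter.Tendsto (fun t : ℝ => x + t • w) (nhdsWithin 0 (Set.Ioi 0)) (nhds x) := by
      have : Filter.Tendsto (fun t : ℝ => x + t • w) (nhds 0) (nhds (x + (0 : ℝ) • w)) := by
        apply Continuous.tendsto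
        fun_prop
      rw [zero_smul, add_zero] at this
      exact this.mono_left nhdsWithin_le_nhds
    have h2 : ∀ᶠ t : ℝ in nhdsWithin 0 (Set.Ioi 0), x + t • w ∈ s :=
      h1.eventually (mem_interior_iff_mem_nhds.1 hx)
    have h3 : ∀ᶠ t : ℝ in nhdsWithin 0 (Set.Ioi 0), 0 < t := self_mem_nhdsWithin
    obtain ⟨t, ht⟩ := (Filter.Eventually.and h2 h3).exists
    exact ⟨t, ht.2, ht.1⟩
  have hle : ∀ x ∈ convexHull ℝ (Set.range ![a, b, m]), inner ℝ v (x - m) ≤ 0 := by
    intro x hx
    obtain ⟨α, β, γ, h0, h1, h2, h3, rfl⟩ := (hull_iff _ _ _ _).1 hx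
    have e : α • a + β • b + γ • m - m = α • (a - m) + β • (b - m) := by
      have : γ = 1 - α - β := by linarith
      rw [this]; module
    rw [e, inner_add_right, inner_smul_right, inner_smul_right, hort]
    nlinarith
  have hge : ∀ x ∈ convexHull ℝ (Set.range ![a, c, m]), 0 ≤ inner ℝ v (x - m) := by
    intro x hx
    obtain ⟨α, β, γ, h0, h1, h2, h3, rfl⟩ := (hull_iff _ _ _ _).1 hx
    have e : α • a + β • c + γ • m - m = α • (a - m) + β • (c - m) := by
      have : γ = 1 - α - β := by linarith
      rw [this]; module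
    rw [e, inner_add_right, inner_smul_right, inner_smul_right, hort]
    nlinarith
  have hdis : Disjoint (interior (convexHull ℝ (Set.range ![a, b, m])))
      (interior (convexHull ℝ (Set.range ![a, c, m]))) := by
    rw [Set.disjoint_left]
    intro x hx hx'
    obtain ⟨t, ht, h1⟩ := hi _ x hx v
    have h2 := hle _ h1
    have h3 := hge _ (interior_subset hx')
    have e : x + t • v - m = (x - m) + t • v := by module
    rw [e, inner_add_right, inner_smul_right] at h2
    nlinarith
  refine ⟨![![a, b, m], ![a, c, m]], ?_, ?_, ?_, ?_⟩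
  · intro i
    obtain ⟨h1, h2⟩ := indep a b c m hT hm
    fin_cases i
    · exact h1
    · exact h2
  · intro i j
    unfold TriSet
    have e1 : f '' convexHull ℝ (Set.range ![a, b, m]) = convexHull ℝ (Set.range ![a, c, m]) := by
      rw [himg, hfa, hfb, hfm]
    have e2 : f '' convexHull ℝ (Set.range ![a, c, m]) = convexHull ℝ (Set.range ![a, b, m]) := by
      rw [himg, hfa, hfc, hfm]
    fin_cases i <;> fin_cases j
    · exact ⟨IsometryEquiv.refl _, Set.image_id _⟩
    · exact ⟨f.toIsometryEquiv, e1⟩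
    · exact ⟨f.toIsometryEquiv, e2⟩
    · exact ⟨IsometryEquiv.refl _, Set.image_id _⟩
  · unfold TriSet
    have : (⋃ i, convexHull ℝ (Set.range ((![![a, b, m], ![a, c, m]] : Fin 2 → Fin 3 → E) i))) =
        convexHull ℝ (Set.range ![a, b, m]) ∪ convexHull ℝ (Set.range ![a, c, m]) := by
      ext x
      simp [Fin.exists_fin_two]
    rw [this]
    ext x
    rw [Set.mem_union, hull_iff, hull_iff, hull_iff]
    constructor
    · rintro (⟨α, β, γ, h0, h1, h2, h3, rfl⟩ | ⟨α, β, γ, h0, h1, h2, h3, rfl⟩)
      · exact ⟨α, β + γ / 2, γ / 2, h0, by positivity, by positivity, by linarith, by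
          rw [hm]; module⟩
      · exact ⟨α, γ / 2, β + γ / 2, h0, by positivity, by positivity, by linarith, by
          rw [hm]; module⟩
    · rintro ⟨α, β, γ, h0, h1, h2, h3, rfl⟩
      rcases le_total γ β with h4 | h4
      · exact Or.inl ⟨α, β - γ, 2 * γ, h0, by linarith, by linarith, by linarith, by
          rw [hm]; module⟩
      · exact Or.inr ⟨α, γ - β, 2 * β, h0, by linarith, by linarith, by linarith, by
          rw [hm]; module⟩
  · intro i j hij
    unfold TriSet
    fin_cases i <;> fin_cases j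
    · exact absurd rfl hij
    · exact hdis
    · exact hdis.symm
    · exact absurd rfl hij

/-- cutting into congruent triangles depends only on the set of vertices -/
theorem cut_perm (T : Fin 3 → E) (σ : Equiv.Perm (Fin 3)) {N : ℕ}
    (h : CanCut (fun k => T (σ k)) N) : CanCut T N := by
  obtain ⟨P, h1, h2, h3, h4⟩ := h
  refine ⟨P, h1, h2, ?_, h4⟩
  rw [h3]
  unfold TriSet
  congr 1
  exact σ.surjective.range_comp T

/-- isosceles triangles can be cut into two congruent triangles -/
theorem iso_cut (T : Fin 3 → E) (hT : AffineIndependent ℝ T) (i j : Fin 3) (hij : i ≠ j)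
    (h : side T i = side T j) : CanCut T 2 := by
  obtain ⟨σ, hσ⟩ : ∃ σ : Equiv.Perm (Fin 3), dist (T (σ 0)) (T (σ 1)) = dist (T (σ 0)) (T (σ 2)) := by
    unfold side at h
    fin_cases i <;> fin_cases j
    · exact absurd rfl hij
    · change dist (T 1) (T 2) = dist (T 2) (T 0) at h
      refine ⟨Equiv.swap 0 2, ?_⟩
      change dist (T 2) (T 1) = dist (T 2) (T 0)
      rw [dist_comm, h]
    · change dist (T 1) (T 2) = dist (T 0) (T 1) at h
      refine ⟨Equiv.swap 0 1, ?_⟩
      change dist (T 1) (T 0) = dist (T 1) (T 2)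
      rw [h, dist_comm]
    · change dist (T 2) (T 0) = dist (T 1) (T 2) at h
      refine ⟨Equiv.swap 0 2, ?_⟩
      change dist (T 2) (T 1) = dist (T 2) (T 0)
      rw [h, dist_comm]
    · exact absurd rfl hij
    · change dist (T 2) (T 0) = dist (T 0) (T 1) at h
      refine ⟨1, ?_⟩
      change dist (T 0) (T 1) = dist (T 0) (T 2)
      rw [← h, dist_comm]
    · change dist (T 0) (T 1) = dist (T 1) (T 2) at h
      refine ⟨Equiv.swap 0 1, ?_⟩
      change dist (T 1) (T 0) = dist (T 1) (T 2)
      rw [← h, dist_comm]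
    · change dist (T 0) (T 1) = dist (T 2) (T 0) at h
      refine ⟨1, ?_⟩
      change dist (T 0) (T 1) = dist (T 0) (T 2)
      rw [h, dist_comm]
    · exact absurd rfl hij
  apply cut_perm T σ
  have e : (fun k => T (σ k)) = ![T (σ 0), T (σ 1), T (σ 2)] := by
    funext k
    fin_cases k <;> rfl
  rw [e]
  apply cut_two _ _ _ _ hσ
  rw [← e]
  exact hT.comp_embedding σ.toEmbedding

end Pool.Agent.V1146.SQ.Iso
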