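import Mathlib
set_option autoImplicit false
noncomputable section
open scoped BigOperators

namespace Pool.Agent.V1146.SQ.Mat

/-- TARGET 1: conjugate eigenvector argument. M v = sqrt 19 v with M a nonnegative integer matrix, v positive. There is a
nonempty set J of indices and signs e such that for k in J, M k l > 0 implies l in J and e l = - e k. -/
theorem conj_set (N : ℕ) (s : ℝ) (hs2 : s * s = N) (hirr : Irrational s)
    (M : Fin 3 → Fin 3 → ℕ) (v : Fin 3 → ℝ) (hv : ∀ k, 0 < v k)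
    (h : ∀ k, ∑ l, (M k l : ℝ) * v l = s * v k) :
    ∃ (J : Finset (Fin 3)) (e : Fin 3 → Bool), J.Nonempty ∧
      ∀ k ∈ J, ∀ l, 0 < M k l → l ∈ J ∧ e l ≠ e k := by
  set A : Matrix (Fin 3) (Fin 3) ℝ := Matrix.of fun k l => (M k l : ℝ) with hA
  have hdet : (A - s • (1 : Matrix (Fin 3) (Fin 3) ℝ)).det = 0 := by
    apply Matrix.exists_mulVec_eq_zero_iff.mp
    refine ⟨v, ?_, ?_⟩
    · intro h0
      have := hv 0
      rw [h0] at this
      simp at this
    · ext k
      have hk := h k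
      rw [Matrix.sub_mulVec, Matrix.smul_mulVec, Matrix.one_mulVec]
      simp only [Pi.sub_apply, Pi.smul_apply, smul_eq_mul, Pi.zero_apply]
      have : A.mulVec v k = ∑ l, (M k l : ℝ) * v l := by
        simp [Matrix.mulVec, dotProduct, hA]
      rw [this, hk]
      ring
  have hdet' : (A + s • (1 : Matrix (Fin 3) (Fin 3) ℝ)).det = 0 := by
    rw [Matrix.det_fin_three] at hdet ⊢
    simp only [Matrix.sub_apply, Matrix.add_apply, Matrix.smul_apply, Matrix.one_apply, hA, smul_eq_mul, Matrix.of_apply] at hdet ⊢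
    have n12 : ((1 : Fin 3) = 2) = False := by simp
    have n21 : ((2 : Fin 3) = 1) = False := by simp
    have n20 : ((2 : Fin 3) = 0) = False := by simp
    have n02 : ((0 : Fin 3) = 2) = False := by simp
    have n10 : ((1 : Fin 3) = 0) = False := by simp
    have n01 : ((0 : Fin 3) = 1) = False := by simp
    simp only [n12, n21, n20, n02, n10, n01, if_false, if_true, mul_zero, mul_one, sub_zero, add_zero] at hdet ⊢
    -- integers
    set a : ℤ := (M 0 0 : ℤ) + M 1 1 + M 2 2 with ha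
    set b : ℤ := (M 0 0 : ℤ) * M 1 1 + (M 0 0 : ℤ) * M 2 2 + (M 1 1 : ℤ) * M 2 2
      - (M 0 1 : ℤ) * M 1 0 - (M 0 2 : ℤ) * M 2 0 - (M 1 2 : ℤ) * M 2 1 with hb
    set c : ℤ := (M 0 0 : ℤ) * M 1 1 * M 2 2 - (M 0 0 : ℤ) * M 1 2 * M 2 1 - (M 0 1 : ℤ) * M 1 0 * M 2 2
      + (M 0 1 : ℤ) * M 1 2 * M 2 0 + (M 0 2 : ℤ) * M 1 0 * M 2 1 - (M 0 2 : ℤ) * M 1 1 * M 2 0 with hc
    have e1 : ((-(N : ℤ) - b : ℤ) : ℝ) * s + (((N : ℤ) * a + c : ℤ) : ℝ) = 0 := by
      have hs3 : s * s * s = N * s := by rw [hs2]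
      rw [ha, hb, hc]
      push_cast
      linear_combination hdet + (-(M 0 0 : ℝ) - M 1 1 - M 2 2 + s) * hs2
    have e2 : (-(N : ℤ) - b : ℤ) = 0 := by
      by_contra hne
      have h1 : s = ((-((N : ℤ) * a + c : ℤ) : ℚ) / ((-(N : ℤ) - b : ℤ) : ℚ) : ℚ) := by
        have hne' : ((-(N : ℤ) - b : ℤ) : ℝ) ≠ 0 := by exact_mod_cast hne
        push_cast at e1 hne' ⊢
        field_simp
        linarith
      exact hirr ⟨_, h1.symm⟩
    have e3 : ((N : ℤ) * a + c : ℤ) = 0 := by
      rw [e2] at e1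
      have : (((N : ℤ) * a + c : ℤ) : ℝ) = 0 := by simpa using e1
      exact_mod_cast this
    have e4 : -((-(N : ℤ) - b : ℤ) : ℝ) * s + (((N : ℤ) * a + c : ℤ) : ℝ) = 0 := by
      rw [e2, e3]; simp
    rw [ha, hb, hc] at e4
    push_cast at e4
    linear_combination e4 + ((M 0 0 : ℝ) + M 1 1 + M 2 2 + s) * hs2
  obtain ⟨w, hw0, hw⟩ := Matrix.exists_mulVec_eq_zero_iff.mpr hdet'
  have hw' : ∀ k, ∑ l, (M k l : ℝ) * w l = - s * w k := by
    intro k
    have := congrFun hw k
    rw [Matrix.add_mulVec, Matrix.smul_mulVec, Matrix.one_mulVec] at this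
    simp only [Pi.add_apply, Pi.smul_apply, smul_eq_mul, Pi.zero_apply] at this
    have h2 : A.mulVec w k = ∑ l, (M k l : ℝ) * w l := by
      simp [Matrix.mulVec, dotProduct, hA]
    rw [h2] at this
    linarith
  obtain ⟨k0, hk0⟩ := Finite.exists_max (fun k => |w k| / v k)
  set r : ℝ := |w k0| / v k0 with hr
  have hle : ∀ k, |w k| ≤ r * v k := by
    intro k
    have := hk0 k
    rwa [div_le_iff₀ (hv k)] at this
  have hrpos : 0 < r := by
    obtain ⟨k, hk⟩ : ∃ k, w k ≠ 0 := by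
      by_contra hcon
      push Not at hcon
      exact hw0 (funext hcon)
    have h1 := hle k
    have h2 : 0 < |w k| := abs_pos.mpr hk
    have h3 : 0 < r * v k := lt_of_lt_of_le h2 h1
    exact pos_of_mul_pos_left h3 (hv k).le
  refine ⟨Finset.univ.filter (fun k => |w k| = r * v k), fun k => decide (0 < w k), ⟨k0, ?_⟩, ?_⟩
  · simp only [Finset.mem_filter, Finset.mem_univ, true_and]
    rw [hr]
    field_simp [(hv k0).ne']
  · intro k hk l hl
    simp only [Finset.mem_filter, Finset.mem_univ, true_and] at hk ⊢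
    have hkp : 0 < r * v k := mul_pos hrpos (hv k)
    have hlp : 0 < r * v l := mul_pos hrpos (hv l)
    have hMl : (0 : ℝ) < M k l := by exact_mod_cast hl
    rcases lt_or_ge 0 (w k) with hpos | hneg
    · have hwk : w k = r * v k := by rwa [abs_of_pos hpos] at hk
      have hsum : ∑ l, (M k l : ℝ) * (w l + r * v l) = 0 := by
        have : ∑ l, (M k l : ℝ) * (w l + r * v l) = ∑ l, (M k l : ℝ) * w l + r * ∑ l, (M k l : ℝ) * v l := by
          rw [Finset.mul_sum, ← Finset.sum_add_distrib]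
          exact Finset.sum_congr rfl (fun l _ => by ring)
        rw [this, hw' k, h k, hwk]
        ring
      have hz := (Finset.sum_eq_zero_iff_of_nonneg (fun i _ => mul_nonneg (Nat.cast_nonneg _) (by
        have := neg_abs_le (w i); have := hle i; linarith))).mp hsum l (Finset.mem_univ l)
      have hz2 : w l + r * v l = 0 := by
        rcases mul_eq_zero.mp hz with h1 | h1
        · exact absurd h1 hMl.ne'
        · exact h1
      have hwl : w l < 0 := by linarith
      refine ⟨?_, ?_⟩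
      · rw [abs_of_neg hwl]; linarith
      · simp [hpos, not_lt.mpr hwl.le]
    · have hwk : w k = - (r * v k) := by
        rw [abs_of_nonpos hneg] at hk; linarith
      have hsum : ∑ l, (M k l : ℝ) * (r * v l - w l) = 0 := by
        have : ∑ l, (M k l : ℝ) * (r * v l - w l) = r * ∑ l, (M k l : ℝ) * v l - ∑ l, (M k l : ℝ) * w l := by
          rw [Finset.mul_sum, ← Finset.sum_sub_distrib]
          exact Finset.sum_congr rfl (fun l _ => by ring)
        rw [this, hw' k, h k, hwk]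
        ring
      have hz := (Finset.sum_eq_zero_iff_of_nonneg (fun i _ => mul_nonneg (Nat.cast_nonneg _) (by
        have := le_abs_self (w i); have := hle i; linarith))).mp hsum l (Finset.mem_univ l)
      have hz2 : r * v l - w l = 0 := by
        rcases mul_eq_zero.mp hz with h1 | h1
        · exact absurd h1 hMl.ne'
        · exact h1
      have hwl : 0 < w l := by linarith
      refine ⟨?_, ?_⟩
      · rw [abs_of_pos hwl]; linarith
      · simp [hwl, not_lt.mpr hneg]

theorem row_pos (s : ℝ) (hs0 : 0 < s) (M : Fin 3 → Fin 3 → ℕ) (v : Fin 3 → ℝ) (hv : ∀ k, 0 < v k)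
    (h : ∀ k, ∑ l, (M k l : ℝ) * v l = s * v k) (k : Fin 3) : ∃ l, 0 < M k l := by
  by_contra hcon
  push Not at hcon
  have h0 : ∀ l, M k l = 0 := fun l => Nat.le_zero.mp (hcon l)
  have h1 := h k
  simp only [h0, Nat.cast_zero, zero_mul, Finset.sum_const_zero] at h1
  have h2 : 0 < s * v k := mul_pos hs0 (hv k)
  linarith

/-- TARGET 2 -/
theorem all_good_false (N : ℕ) (s : ℝ) (hs0 : 0 < s) (hs2 : s * s = N) (hirr : Irrational s)
    (M : Fin 3 → Fin 3 → ℕ) (v : Fin 3 → ℝ) (hv : ∀ k, 0 < v k)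
    (h : ∀ k, ∑ l, (M k l : ℝ) * v l = s * v k)
    (hgood : ∀ k l, l ≠ k → ∃ l', l' ≠ k ∧ 0 < M l l') : False := by
  obtain ⟨J, e, ⟨k, hk⟩, hJ⟩ := conj_set N s hs2 hirr M v hv h
  obtain ⟨l, hl⟩ := row_pos s hs0 M v hv h k
  obtain ⟨hlJ, hel⟩ := hJ k hk l hl
  have hkl : k ≠ l := fun hh => hel (by rw [hh])
  obtain ⟨m, hml, hm⟩ := hgood l k hkl
  obtain ⟨hmJ, hem⟩ := hJ k hk m hm
  have hmk : m ≠ k := fun hh => hem (by rw [hh])
  obtain ⟨p, hpk, hp⟩ := hgood k m hmk
  obtain ⟨hpJ, hep⟩ := hJ m hmJ p hp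
  have hp3 : p = l ∨ p = m := by
    clear hJ hel hem hep hlJ hmJ hpJ hk hl hm hp hgood h hv
    revert k l m p
    decide
  rcases hp3 with rfl | rfl
  · revert hel hem hep
    cases e k <;> cases e p <;> cases e m <;> simp
  · exact hep rfl


/-- good corners 0 and 1 only: then the matrix has the shape of the right triangle dissections -/
theorem two_good (N : ℕ) (s : ℝ) (hs0 : 0 < s) (hs2 : s * s = N) (hirr : Irrational s)
    (M : Fin 3 → Fin 3 → ℕ) (v : Fin 3 → ℝ) (hv : ∀ k, 0 < v k)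
    (h : ∀ k, ∑ l, (M k l : ℝ) * v l = s * v k)
    (hgood : ∀ k l, k ≠ 2 → l ≠ k → ∃ l', l' ≠ k ∧ 0 < M l l') :
    (M 0 2 : ℝ) * v 2 = s * v 0 ∧ (M 1 2 : ℝ) * v 2 = s * v 1 := by
  obtain ⟨J, e, ⟨k0, hk0⟩, hJ⟩ := conj_set N s hs2 hirr M v hv h
  obtain ⟨k, l, hk, hl2, hl⟩ : ∃ k l, k ∈ J ∧ l ≠ 2 ∧ 0 < M k l := by
    obtain ⟨l, hl⟩ := row_pos s hs0 M v hv h k0
    by_cases hl2 : l = 2
    · subst hl2
      obtain ⟨h2J, -⟩ := hJ k0 hk0 2 hl
      obtain ⟨l2, hl2⟩ := row_pos s hs0 M v hv h 2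
      obtain ⟨-, hel⟩ := hJ 2 h2J l2 hl2
      exact ⟨2, l2, h2J, fun hh => hel (by rw [hh]), hl2⟩
    · exact ⟨k0, l, hk0, hl2, hl⟩
  obtain ⟨hlJ, hel⟩ := hJ k hk l hl
  have hkl : k ≠ l := fun hh => hel (by rw [hh])
  obtain ⟨m, hml, hm⟩ := hgood l k hl2 hkl
  obtain ⟨hmJ, hem⟩ := hJ k hk m hm
  have hmk : m ≠ k := fun hh => hem (by rw [hh])
  by_cases hk2 : k = 2
  · subst hk2
    have hJall : ∀ i, i ∈ J ∧ (i ≠ 2 → e i ≠ e 2) := by
      intro i
      have hi : i = l ∨ i = m ∨ i = 2 := by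
        clear hJ hel hem hlJ hmJ hk hl hm hgood h hv
        revert l m i
        decide
      rcases hi with rfl | rfl | rfl
      · exact ⟨hlJ, fun _ => hel⟩
      · exact ⟨hmJ, fun _ => hem⟩
      · exact ⟨hk, fun hh => absurd rfl hh⟩
    have hz : ∀ i j, i ≠ 2 → j ≠ 2 → M i j = 0 := by
      intro i j hi hj
      by_contra hne
      have h1 := (hJ i (hJall i).1 j (Nat.pos_of_ne_zero hne)).2
      have h2 := (hJall i).2 hi
      have h3 := (hJall j).2 hj
      revert h1 h2 h3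
      cases e i <;> cases e j <;> cases e 2 <;> simp
    have h0 := h 0
    have h1 := h 1
    rw [Fin.sum_univ_three] at h0 h1
    rw [hz 0 0 (by decide) (by decide), hz 0 1 (by decide) (by decide)] at h0
    rw [hz 1 0 (by decide) (by decide), hz 1 1 (by decide) (by decide)] at h1
    simp only [Nat.cast_zero, zero_mul, zero_add] at h0 h1
    exact ⟨h0, h1⟩
  · exfalso
    obtain ⟨p, hpk, hp⟩ := hgood k m hk2 hmk
    obtain ⟨hpJ, hep⟩ := hJ m hmJ p hp
    have hp3 : p = l ∨ p = m := by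
      clear hJ hel hem hep hlJ hmJ hpJ hk hl hm hp hgood h hv hk2 hl2
      revert k l m p
      decide
    rcases hp3 with rfl | rfl
    · revert hel hem hep
      cases e k <;> cases e p <;> cases e m <;> simp
    · exact hep rfl

end Pool.Agent.V1146.SQ.Mat
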