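import Mathlib
import Pool.Agent.Helper549.Tri.DataDef
import Pool.Agent.V1146.SQ.Mat
set_option autoImplicit false
noncomputable section
open scoped BigOperators

namespace Pool.Agent.V1146.SQ.Sim
open Pool.Agent.Helper549.Tri
open Pool.Agent.V1146.SQ.Mat

variable {N : ℕ} {ℓ θ S A : Fin 3 → ℝ} {κ β : Fin 3 → Fin 3 → ℕ}

theorem sin_pos (h : Data N ℓ θ S A κ β) (k : Fin 3) : 0 < Real.sin (θ k) := by
  apply Real.sin_pos_of_pos_of_lt_pi (h.tpos k)
  have h1 := h.tsum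
  have h2 := h.tpos 0
  have h3 := h.tpos 1
  have h4 := h.tpos 2
  fin_cases k
  · simp only [Fin.zero_eta]; linarith
  · simp only [Fin.mk_one]; linarith
  · simp only [Fin.reduceFinMk]; linarith

/-- the sides of the tile are proportional to the sines -/
theorem ell_eq (h : Data N ℓ θ S A κ β) : ∃ c : ℝ, 0 < c ∧ ∀ k, ℓ k = c * Real.sin (θ k) := by
  refine ⟨ℓ 0 / Real.sin (θ 0), div_pos (h.lpos 0) (sin_pos h 0), fun k => ?_⟩
  have h1 := h.sinet 0 k
  have h2 := sin_pos h 0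
  field_simp
  linarith

/-- the triangle inequality in the tile -/
theorem tri_ineq (h : Data N ℓ θ S A κ β) (a b c : Fin 3)
    (hs : θ a + θ b + θ c = Real.pi) : ℓ a < ℓ b + ℓ c := by
  obtain ⟨r, hr, hl⟩ := ell_eq h
  rw [hl a, hl b, hl c]
  have e : θ a = Real.pi - (θ b + θ c) := by linarith
  rw [e, Real.sin_pi_sub, Real.sin_add]
  have hb := sin_pos h b
  have hc := sin_pos h c
  have ha := sin_pos h a
  have h1 : Real.cos (θ c) < 1 := by
    rcases lt_or_eq_of_le (Real.cos_le_one (θ c)) with h2 | h2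
    · exact h2
    · exfalso
      have := Real.sin_sq_add_cos_sq (θ c)
      rw [h2] at this
      nlinarith
  have h2 := Real.cos_le_one (θ b)
  have : Real.sin (θ b) * Real.cos (θ c) + Real.cos (θ b) * Real.sin (θ c) <
      Real.sin (θ b) + Real.sin (θ c) := by nlinarith
  nlinarith

theorem scale (h : Data N ℓ θ S A κ β) (hA : ∀ j, A j = θ j) :
    ∃ ρ : ℝ, 0 < ρ ∧ (∀ j, S j = ρ * ℓ j) ∧ ρ * ρ = N := by
  obtain ⟨ρ, hρ⟩ : ∃ ρ, ρ = S 0 / ℓ 0 := ⟨_, rfl⟩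
  have hρpos : 0 < ρ := by rw [hρ]; exact div_pos (h.Spos 0) (h.lpos 0)
  have hS0 : S 0 = ρ * ℓ 0 := by
    rw [hρ, div_mul_cancel₀ _ (h.lpos 0).ne']
  have hS : ∀ j, S j = ρ * ℓ j := by
    intro j
    have h1 := h.sineT j 0
    have h2 := h.sinet j 0
    rw [hA, hA] at h1
    have h3 : (S j - ρ * ℓ j) * Real.sin (θ 0) = 0 := by
      rw [hS0] at h1
      linear_combination h1 - ρ * h2
    rcases mul_eq_zero.1 h3 with h4 | h4
    · linarith
    · exact absurd h4 (sin_pos h 0).ne'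
  refine ⟨ρ, hρpos, hS, ?_⟩
  have h1 := h.area
  rw [hA, hS 0, hS 1] at h1
  have h2 : (ρ * ρ - N) * (ℓ 0 * ℓ 1 * Real.sin (θ 2)) = 0 := by
    linear_combination -h1
  rcases mul_eq_zero.1 h2 with h4 | h4
  · linarith
  · exact absurd h4 (mul_pos (mul_pos (h.lpos 0) (h.lpos 1)) (sin_pos h 2)).ne'

theorem irr_of (hN : ¬ IsSquare N) {ρ : ℝ} (h0 : 0 < ρ) (h : ρ * ρ = N) : Irrational ρ := by
  have : ρ = Real.sqrt (N : ℝ) := by
    rw [← h, Real.sqrt_mul_self h0.le]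
  rw [this, irrational_sqrt_natCast_iff]
  exact hN

theorem A_eq (h : Data N ℓ θ S A κ β) (h0 : A 0 = θ 0) (h1 : A 1 = θ 1) : ∀ j, A j = θ j := by
  have h2 : A 2 = θ 2 := by
    have := h.Asum
    have := h.tsum
    linarith
  intro j
  fin_cases j
  · exact h0
  · exact h1
  · exact h2

theorem shapeG (h : Data N ℓ θ S A ![![1,0,0],![0,1,0],![0,0,1]] β) (hN : ¬ IsSquare N) :
    False := by
  have hA : ∀ j, A j = θ j := by
    intro j
    rw [h.angles j]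
    fin_cases j <;> simp [Fin.sum_univ_three]
  obtain ⟨ρ, hρ, hS, hsq⟩ := scale h hA
  refine all_good_false N ρ hρ hsq (irr_of hN hρ hsq) β ℓ h.lpos ?_ ?_
  · intro k
    rw [← hS k, ← h.side k]
  · intro k l hlk
    obtain ⟨x, y, hxy, hx, hy⟩ := h.corner k l (Ne.symm hlk)
    have hxk : x = k := by
      revert hx
      fin_cases k <;> fin_cases x <;> simp
    exact ⟨y, by rw [← hxk]; exact hxy.symm, hy⟩

/-- similar tile, right angle split -/
theorem shapeC (h : Data N ℓ θ S A ![![1,0,0],![0,1,0],![1,1,0]] β) (hN : ¬ IsSquare N) :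
    A 2 = Real.pi / 2 ∧ ∃ p q : ℕ, p ^ 2 + q ^ 2 = N ∧ S 0 * q = S 1 * p ∧
      ∃ m ρ : ℝ, m ≠ 0 ∧ ρ ^ 2 = N ∧ S 0 = m * p ∧ S 1 = m * q ∧ S 2 = m * ρ := by
  have a0 := h.angles 0
  have a1 := h.angles 1
  have a2 := h.angles 2
  simp [Fin.sum_univ_three] at a0 a1 a2
  have hA := A_eq h a0 a1
  have hright : A 2 = Real.pi / 2 := by
    have := h.Asum
    rw [a0, a1] at this
    linarith
  obtain ⟨ρ, hρ, hS, hsq⟩ := scale h hA
  have hside : ∀ k, ∑ l, (β k l : ℝ) * ℓ l = ρ * ℓ k := by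
    intro k
    rw [← hS k, ← h.side k]
  obtain ⟨e0, e1⟩ := two_good N ρ hρ hsq (irr_of hN hρ hsq) β ℓ h.lpos hside (by
    intro k l hk2 hlk
    obtain ⟨x, y, hxy, hx, hy⟩ := h.corner k l (Ne.symm hlk)
    have hxk : x = k := by
      revert hx hk2
      fin_cases k <;> fin_cases x <;> simp
    exact ⟨y, by rw [← hxk]; exact hxy.symm, hy⟩)
  refine ⟨hright, β 0 2, β 1 2, ?_, ?_, ℓ 2, ρ, (h.lpos 2).ne', by rw [sq, hsq],
    by rw [hS 0, ← e0]; ring, by rw [hS 1, ← e1]; ring, by rw [hS 2]; ring⟩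
  · have s02 := h.sinet 0 2
    have s12 := h.sinet 1 2
    have ht2 : θ 2 = Real.pi / 2 := by rw [← hA 2]; exact hright
    have ht1 : θ 1 = Real.pi / 2 - θ 0 := by
      have := h.tsum
      linarith
    rw [ht2, Real.sin_pi_div_two, mul_one] at s02 s12
    rw [ht1, Real.sin_pi_div_two_sub] at s12
    have hpy : ℓ 0 ^ 2 + ℓ 1 ^ 2 = ℓ 2 ^ 2 := by
      rw [s02, s12]
      have := Real.sin_sq_add_cos_sq (θ 0)
      linear_combination ℓ 2 ^ 2 * this
    have hl2 := h.lpos 2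
    have : ((β 0 2 : ℝ) ^ 2 + (β 1 2 : ℝ) ^ 2) * ℓ 2 ^ 2 = N * ℓ 2 ^ 2 := by
      have x0 : ((β 0 2 : ℝ) * ℓ 2) ^ 2 = N * ℓ 0 ^ 2 := by
        rw [e0, mul_pow, sq ρ, hsq]
      have x1 : ((β 1 2 : ℝ) * ℓ 2) ^ 2 = N * ℓ 1 ^ 2 := by
        rw [e1, mul_pow, sq ρ, hsq]
      linear_combination x0 + x1 + (N : ℝ) * hpy
    have h2 := mul_right_cancel₀ (pow_ne_zero 2 hl2.ne') this
    exact_mod_cast h2
  · rw [hS 0, hS 1, ← e0, ← e1]
    ring

/-- similar tile, angle relation 3a+2b = pi -/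
theorem shapeD (h : Data N ℓ θ S A ![![1,0,0],![0,1,0],![2,1,0]] β) (hN : ¬ IsSquare N) :
    False := by
  have a0 := h.angles 0
  have a1 := h.angles 1
  simp [Fin.sum_univ_three] at a0 a1
  obtain ⟨ρ, hρ, hS, hsq⟩ := scale h (A_eq h a0 a1)
  obtain ⟨M, -, -, hM, -⟩ := h.char ![-1, 1, 1] (by decide) (by decide) ⟨2, by decide⟩
    (by decide)
  simp [Fin.sum_univ_three, Fin.prod_univ_three] at hM
  have ht := tri_ineq h 0 1 2 h.tsum
  rw [hS 0, hS 1, hS 2] at hM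
  have h2 : (ρ - M) * (ℓ 1 + ℓ 2 - ℓ 0) = 0 := by linear_combination hM
  rcases mul_eq_zero.1 h2 with h3 | h3
  · exact irr_of hN hρ hsq ⟨M, by push_cast; linarith⟩
  · linarith

/-- similar tile, angle 2 pi / 3 split -/
theorem shapeF (h : Data N ℓ θ S A ![![1,0,0],![0,1,0],![2,2,0]] β) (hN : ¬ IsSquare N) :
    False := by
  have a0 := h.angles 0
  have a1 := h.angles 1
  simp [Fin.sum_univ_three] at a0 a1
  obtain ⟨ρ, hρ, hS, hsq⟩ := scale h (A_eq h a0 a1)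
  obtain ⟨M, -, -, hM, -⟩ := h.char ![1, -1, 1] (by decide) (by decide) ⟨2, by decide⟩
    (by decide)
  simp [Fin.sum_univ_three, Fin.prod_univ_three] at hM
  have ht := tri_ineq h 1 0 2 (by have := h.tsum; linarith)
  rw [hS 0, hS 1, hS 2] at hM
  have h2 : (ρ - M) * (ℓ 0 + ℓ 2 - ℓ 1) = 0 := by linear_combination hM
  rcases mul_eq_zero.1 h2 with h3 | h3
  · exact irr_of hN hρ hsq ⟨M, by push_cast; linarith⟩
  · linarith

/-- similar tile, one angle twice another -/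
theorem shapeB (h : Data N ℓ θ S A ![![1,0,0],![2,0,0],![0,0,1]] β) (hN : ¬ IsSquare N) :
    False := by
  have a0 := h.angles 0
  have a1 := h.angles 1
  have a2 := h.angles 2
  simp [Fin.sum_univ_three] at a0 a1 a2
  have ht1 : θ 1 = 2 * θ 0 := by
    have := h.Asum
    have := h.tsum
    linarith
  obtain ⟨ρ, hρ, hS, hsq⟩ := scale h (A_eq h a0 (by rw [a1, ht1]))
  obtain ⟨M, -, -, hM, -⟩ := h.char ![-1, 1, 1] (by decide) (by decide) ⟨1, by decide⟩
    (by decide)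
  simp [Fin.sum_univ_three, Fin.prod_univ_three] at hM
  have ht := tri_ineq h 0 1 2 h.tsum
  rw [hS 0, hS 1, hS 2] at hM
  have h2 : (ρ - M) * (ℓ 1 + ℓ 2 - ℓ 0) = 0 := by linear_combination hM
  rcases mul_eq_zero.1 h2 with h3 | h3
  · exact irr_of hN hρ hsq ⟨M, by push_cast; linarith⟩
  · linarith

end Pool.Agent.V1146.SQ.Sim
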