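import Mathlib
import Pool.Agent.V1146.SQ.Sim
set_option autoImplicit false
noncomputable section
open scoped BigOperators
open Polynomial

namespace Pool.Agent.V1146.SQ.Trans
open Pool.Agent.Helper549.Tri
open Pool.Agent.V1146.SQ.Sim

variable {N : ℕ} {ℓ θ S A : Fin 3 → ℝ} {κ β : Fin 3 → Fin 3 → ℕ}

/-- all ratios of two sides are algebraic numbers -/
def Alg (S : Fin 3 → ℝ) : Prop := ∀ i j, IsAlgebraic ℤ (S i / S j)

/-- a polynomial identity at a transcendental number holds everywhere -/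
theorem ident {u : ℝ} (hu : Transcendental ℤ u) (P : ℤ[X]) (h : aeval u P = 0) (v : ℝ) :
    aeval v P = 0 := by
  rw [transcendental_iff.1 hu P h]
  simp

theorem alg_aeval {u : ℝ} (hu : IsAlgebraic ℤ u) (P : ℤ[X]) : IsAlgebraic ℤ (aeval u P) := by
  have h1 : Algebra.adjoin ℤ {u} ≤ Subalgebra.algebraicClosure ℤ ℝ := by
    apply Algebra.adjoin_le
    simpa [Subalgebra.mem_algebraicClosure] using hu
  exact h1 (aeval_mem_adjoin_singleton ℤ u)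

/-- if the tile is given by polynomials in an algebraic number, the triangle has algebraic ratios -/
theorem alg_of_poly (h : Data N ℓ θ S A κ β) (μ u : ℝ) (hμ : μ ≠ 0) (F : Fin 3 → ℤ[X])
    (hF : ∀ k, ℓ k = μ * aeval u (F k)) (hu : IsAlgebraic ℤ u) : Alg S := by
  intro i j
  have hS : ∀ j, S j = μ * aeval u (∑ k, C (β j k : ℤ) * F k) := by
    intro j
    rw [h.side j, map_sum, Finset.mul_sum]
    refine Finset.sum_congr rfl fun k _ => ?_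
    rw [hF k, map_mul, aeval_C]
    simp
    ring
  rw [hS i, hS j, mul_div_mul_left _ _ hμ, div_eq_mul_inv]
  exact (alg_aeval hu _).mul (alg_aeval hu _).inv

theorem cross (h : Data N ℓ θ S A κ β) (μ u : ℝ) (hμ : μ ≠ 0) (F : Fin 3 → ℤ[X])
    (hF : ∀ k, ℓ k = μ * aeval u (F k)) (hu : Transcendental ℤ u) (G : Fin 3 → ℤ[X]) (i j : Fin 3)
    (hG : S i * aeval u (G j) = S j * aeval u (G i)) (v : ℝ) :
    (∑ k, (β i k : ℝ) * aeval v (F k)) * aeval v (G j) =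
      (∑ k, (β j k : ℝ) * aeval v (F k)) * aeval v (G i) := by
  have hS : ∀ j, S j = μ * aeval u (∑ k, C (β j k : ℤ) * F k) := by
    intro j
    rw [h.side j, map_sum, Finset.mul_sum]
    refine Finset.sum_congr rfl fun k _ => ?_
    rw [hF k, map_mul, aeval_C]
    simp
    ring
  have h1 : aeval u ((∑ k, C (β i k : ℤ) * F k) * G j - (∑ k, C (β j k : ℤ) * F k) * G i) = 0 := by
    rw [map_sub, map_mul, map_mul]
    rw [hS i, hS j] at hG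
    have : μ * (aeval u (∑ k, C (β i k : ℤ) * F k) * aeval u (G j) -
      aeval u (∑ k, C (β j k : ℤ) * F k) * aeval u (G i)) = 0 := by linear_combination hG
    rcases mul_eq_zero.1 this with h2 | h2
    · exact absurd h2 hμ
    · exact h2
  have h2 := ident hu _ h1 v
  have h3 : ∀ i, aeval v (∑ k, C (β i k : ℤ) * F k) = ∑ k, (β i k : ℝ) * aeval v (F k) := by
    intro i
    rw [map_sum]
    refine Finset.sum_congr rfl fun k _ => ?_
    rw [map_mul, aeval_C]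
    simp
  rw [map_sub, map_mul, map_mul, h3, h3] at h2
  linarith

/-- shape polynomials of the tiles with 3a+2b=pi -/
def F32 : Fin 3 → ℤ[X] := ![X, 1 - X ^ 2, 1]
/-- shape polynomials of the tiles with angle 2 pi / 3 -/
def F33 : Fin 3 → ℤ[X] := ![1 - X ^ 2, X ^ 2 + (X + X), 1 + X + X ^ 2]

theorem F32_0 (v : ℝ) : aeval v (F32 0) = v := by simp [F32]
theorem F32_1 (v : ℝ) : aeval v (F32 1) = 1 - v ^ 2 := by simp [F32]
theorem F32_2 (v : ℝ) : aeval v (F32 2) = 1 := by simp [F32]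
theorem F33_0 (v : ℝ) : aeval v (F33 0) = 1 - v ^ 2 := by simp [F33]
theorem F33_1 (v : ℝ) : aeval v (F33 1) = v ^ 2 + 2 * v := by
  simp only [F33, Matrix.cons_val_one, Matrix.cons_val_zero, map_add, map_pow, aeval_X]
  ring
theorem F33_2 (v : ℝ) : aeval v (F33 2) = 1 + v + v ^ 2 := by simp [F33]

/-- parametrisation of the tiles with 3a+2b=pi -/
theorem tile32 (h : Data N ℓ θ S A κ β) (ht : 3 * θ 0 + 2 * θ 1 = Real.pi) :
    ∃ μ u x : ℝ, 0 < μ ∧ θ 0 = 2 * x ∧ θ 1 = Real.pi / 2 - 3 * x ∧ 0 < Real.sin x ∧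
      0 < Real.cos x ∧ u = 2 * Real.sin x ∧ (∀ k, ℓ k = μ * aeval u (F32 k)) := by
  obtain ⟨c, hc, hl⟩ := ell_eq h
  obtain ⟨x, hx⟩ : ∃ x, x = θ 0 / 2 := ⟨_, rfl⟩
  have h0 : θ 0 = 2 * x := by rw [hx]; ring
  have h1 : θ 1 = Real.pi / 2 - 3 * x := by linarith
  have h2 : θ 2 = x + Real.pi / 2 := by
    have := h.tsum
    linarith
  have p0 := h.tpos 0
  have p1 := h.tpos 1
  have hcos : 0 < Real.cos x := Real.cos_pos_of_mem_Ioo ⟨by linarith, by linarith⟩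
  have hsin : 0 < Real.sin x := Real.sin_pos_of_pos_of_lt_pi (by linarith) (by linarith)
  refine ⟨c * Real.cos x, 2 * Real.sin x, x, mul_pos hc hcos, h0, h1, hsin, hcos, rfl, ?_⟩
  intro k
  rw [hl k]
  have hss := Real.sin_sq_add_cos_sq x
  fin_cases k
  · show c * Real.sin (θ 0) = c * Real.cos x * aeval (2 * Real.sin x) (F32 0)
    rw [F32_0, h0, Real.sin_two_mul]
    ring
  · show c * Real.sin (θ 1) = c * Real.cos x * aeval (2 * Real.sin x) (F32 1)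
    rw [F32_1, h1, Real.sin_pi_div_two_sub, Real.cos_three_mul]
    linear_combination (4 * c * Real.cos x) * hss
  · show c * Real.sin (θ 2) = c * Real.cos x * aeval (2 * Real.sin x) (F32 2)
    rw [F32_2, h2, Real.sin_add_pi_div_two]
    ring

/-- parametrisation of the tiles with angle 2 pi / 3 -/
theorem tile33 (h : Data N ℓ θ S A κ β) (ht : θ 0 + θ 1 = Real.pi / 3) :
    ∃ μ u c : ℝ, 0 < μ ∧ 0 < c ∧ (∀ k, ℓ k = c * Real.sin (θ k)) ∧
      ℓ 0 ^ 2 + ℓ 0 * ℓ 1 + ℓ 1 ^ 2 = ℓ 2 ^ 2 ∧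
      c * Real.sin (Real.pi / 3) = ℓ 2 ∧ 2 * Real.cos (θ 0) * ℓ 2 = ℓ 0 + 2 * ℓ 1 ∧
      2 * Real.cos (θ 1) * ℓ 2 = 2 * ℓ 0 + ℓ 1 ∧
      c * Real.sin (Real.pi / 3 + θ 1) = ℓ 0 + ℓ 1 ∧ c * Real.sin (Real.pi / 3 + θ 0) = ℓ 0 + ℓ 1 ∧
      (∀ k, ℓ k = μ * aeval u (F33 k)) := by
  obtain ⟨c, hc, hl⟩ := ell_eq h
  have hs3 : Real.sin (Real.pi / 3) = Real.sqrt 3 / 2 := Real.sin_pi_div_three
  have hc3 : Real.cos (Real.pi / 3) = 1 / 2 := Real.cos_pi_div_three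
  have hsq3 : Real.sqrt 3 * Real.sqrt 3 = 3 := Real.mul_self_sqrt (by norm_num)
  have t1 : θ 1 = Real.pi / 3 - θ 0 := by linarith
  have t0 : θ 0 = Real.pi / 3 - θ 1 := by linarith
  have t2 : θ 2 = Real.pi - Real.pi / 3 := by
    have := h.tsum
    linarith
  have l2 : ℓ 2 = c * (Real.sqrt 3 / 2) := by rw [hl 2, t2, Real.sin_pi_sub, hs3]
  have l1 : ℓ 1 = c * (Real.sqrt 3 / 2 * Real.cos (θ 0) - 1 / 2 * Real.sin (θ 0)) := by
    rw [hl 1, t1, Real.sin_sub, hs3, hc3]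
  have l0 : ℓ 0 = c * (Real.sqrt 3 / 2 * Real.cos (θ 1) - 1 / 2 * Real.sin (θ 1)) := by
    rw [hl 0, t0, Real.sin_sub, hs3, hc3]
  have hss := Real.sin_sq_add_cos_sq (θ 0)
  have hquad : ℓ 0 ^ 2 + ℓ 0 * ℓ 1 + ℓ 1 ^ 2 = ℓ 2 ^ 2 := by
    rw [l2, l1, hl 0]
    linear_combination (c ^ 2 * (Real.sqrt 3 * Real.sqrt 3) / 4) * hss +
      (-(c ^ 2) * Real.sin (θ 0) ^ 2 / 4) * hsq3
  have p0 := h.lpos 0
  have p1 := h.lpos 1
  have p2 := h.lpos 2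
  have hD : 0 < 1 + ℓ 1 / (ℓ 2 + ℓ 0) + (ℓ 1 / (ℓ 2 + ℓ 0)) ^ 2 := by positivity
  refine ⟨ℓ 2 / (1 + ℓ 1 / (ℓ 2 + ℓ 0) + (ℓ 1 / (ℓ 2 + ℓ 0)) ^ 2), ℓ 1 / (ℓ 2 + ℓ 0), c,
    div_pos p2 hD, hc, hl, hquad, ?_, ?_, ?_, ?_, ?_, ?_⟩
  · rw [hs3, l2]
  · rw [l2, l1, hl 0]; ring
  · rw [l2, l0, hl 1]; ring
  · rw [Real.sin_add, hs3, hc3, l0, hl 1]; ring
  · rw [Real.sin_add, hs3, hc3, l1, hl 0]; ring
  · intro k
    have hne : ℓ 2 + ℓ 0 ≠ 0 := by positivity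
    obtain ⟨u, hu⟩ : ∃ u, u = ℓ 1 / (ℓ 2 + ℓ 0) := ⟨_, rfl⟩
    rw [← hu] at hD ⊢
    have hu1 : u * (ℓ 2 + ℓ 0) = ℓ 1 := by rw [hu]; field_simp
    have e0 : ℓ 0 * (1 + u + u ^ 2) = ℓ 2 * (1 - u ^ 2) := by
      have : (ℓ 2 + ℓ 0) * (ℓ 0 * (1 + u + u ^ 2) - ℓ 2 * (1 - u ^ 2)) = 0 := by
        rw [← hu1] at hquad
        linear_combination hquad
      rcases mul_eq_zero.1 this with h3 | h3
      · exact absurd h3 hne
      · linarith
    have hDne : 1 + u + u ^ 2 ≠ 0 := hD.ne'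
    fin_cases k
    · show ℓ 0 = ℓ 2 / (1 + u + u ^ 2) * aeval u (F33 0)
      rw [F33_0, div_mul_eq_mul_div, eq_div_iff hDne]
      exact e0
    · show ℓ 1 = ℓ 2 / (1 + u + u ^ 2) * aeval u (F33 1)
      rw [F33_1, div_mul_eq_mul_div, eq_div_iff hDne, ← hu1]
      linear_combination u * e0
    · show ℓ 2 = ℓ 2 / (1 + u + u ^ 2) * aeval u (F33 2)
      rw [F33_2, div_mul_cancel₀ _ hDne]

end Pool.Agent.V1146.SQ.Trans
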