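import Mathlib
import Pool.Agent.V1146.SQ.Trans
set_option autoImplicit false
noncomputable section
open scoped BigOperators
open Polynomial

namespace Pool.Agent.V1146.SQ.Shapes
open Pool.Agent.Helper549.Tri
open Pool.Agent.V1146.SQ.Sim
open Pool.Agent.V1146.SQ.Trans

variable {N : ℕ} {ℓ θ S A : Fin 3 → ℝ} {κ β : Fin 3 → Fin 3 → ℕ}

theorem S_zero (h : Data N ℓ θ S A κ β) (j : Fin 3) (h0 : (β j 0 : ℝ) ≤ 0) (h1 : (β j 1 : ℝ) ≤ 0)
    (h2 : (β j 2 : ℝ) ≤ 0) : False := by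
  have e := h.side j
  rw [Fin.sum_univ_three] at e
  have p := h.Spos j
  have e0 : (β j 0 : ℝ) = 0 := le_antisymm h0 (Nat.cast_nonneg _)
  have e1 : (β j 1 : ℝ) = 0 := le_antisymm h1 (Nat.cast_nonneg _)
  have e2 : (β j 2 : ℝ) = 0 := le_antisymm h2 (Nat.cast_nonneg _)
  rw [e0, e1, e2] at e
  linarith

/-- T = (a, 2a, 2b) with 3a+2b = pi -/
theorem shapeI (h : Data N ℓ θ S A ![![1,0,0],![2,0,0],![0,2,0]] β) : Alg S := by
  have a0 := h.angles 0
  have a1 := h.angles 1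
  have a2 := h.angles 2
  simp [Fin.sum_univ_three] at a0 a1 a2
  obtain ⟨μ, u, x, hμ, t0, t1, hsx, hcx, hu, hF⟩ := tile32 h (by
    have := h.Asum
    rw [a0, a1, a2] at this
    linarith)
  by_cases hal : IsAlgebraic ℤ u
  · exact alg_of_poly h μ u hμ.ne' F32 hF hal
  exfalso
  obtain ⟨G, hG⟩ : ∃ G : Fin 3 → ℤ[X], G = ![1, 1 + 1 - X ^ 2, (1 + 1 - X ^ 2) ^ 2 - 1] := ⟨_, rfl⟩
  have g0 : ∀ v : ℝ, aeval v (G 0) = 1 := by intro v; simp [hG]
  have g1 : ∀ v : ℝ, aeval v (G 1) = 2 - v ^ 2 := by intro v; simp [hG]; ring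
  have g2 : ∀ v : ℝ, aeval v (G 2) = (2 - v ^ 2) ^ 2 - 1 := by intro v; simp [hG]; ring
  have hc2 : 2 * Real.cos (2 * x) = 2 - u ^ 2 := by
    rw [hu, Real.cos_two_mul]
    have := Real.sin_sq_add_cos_sq x
    linear_combination 4 * this
  have hs2 : Real.sin (2 * x) ≠ 0 := by
    rw [Real.sin_two_mul]; positivity
  have A0 : A 0 = 2 * x := by rw [a0, t0]
  have A1 : A 1 = 2 * (2 * x) := by rw [a1, t0]
  have A2 : A 2 = Real.pi - 3 * (2 * x) := by rw [a2, t1]; ring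
  have r1 : S 1 * aeval u (G 0) = S 0 * aeval u (G 1) := by
    rw [g0, g1, ← hc2]
    have e := h.sineT 1 0
    rw [A0, A1, Real.sin_two_mul (2 * x)] at e
    apply mul_right_cancel₀ hs2
    linear_combination e
  have r2 : S 2 * aeval u (G 0) = S 0 * aeval u (G 2) := by
    rw [g0, g2, ← hc2]
    have e := h.sineT 2 0
    rw [A0, A2, Real.sin_pi_sub, Real.sin_three_mul] at e
    apply mul_right_cancel₀ hs2
    have := Real.sin_sq_add_cos_sq (2 * x)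
    linear_combination e + (-4 * S 0 * Real.sin (2 * x)) * this
  have E1 := cross h μ u hμ.ne' F32 hF hal G 1 0 r1
  have E2 := cross h μ u hμ.ne' F32 hF hal G 2 0 r2
  simp only [Fin.sum_univ_three, F32_0, F32_1, F32_2, g0, g1, g2] at E1 E2
  have n : ∀ i j, (0 : ℝ) ≤ β i j := fun i j => Nat.cast_nonneg _
  have p1 := E1 0
  have p2 := E1 1
  have p3 := E1 (-1)
  have p4 := E1 2
  have p5 := E1 (-2)
  have q1 := E2 0
  have q2 := E2 1
  have q3 := E2 (-1)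
  have q4 := E2 2
  have q5 := E2 (-2)
  norm_num at p1 p2 p3 p4 p5 q1 q2 q3 q4 q5
  refine S_zero h 0 ?_ ?_ ?_ <;>
    linarith [n 0 0, n 0 1, n 0 2, n 1 0, n 1 1, n 1 2, n 2 0, n 2 1, n 2 2]

/-- T = (b, 2a, a+b) with 3a+2b = pi -/
theorem shapeII (h : Data N ℓ θ S A ![![0,1,0],![2,0,0],![1,1,0]] β) : Alg S := by
  have a0 := h.angles 0
  have a1 := h.angles 1
  have a2 := h.angles 2
  simp [Fin.sum_univ_three] at a0 a1 a2
  obtain ⟨μ, u, x, hμ, t0, t1, hsx, hcx, hu, hF⟩ := tile32 h (by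
    have := h.Asum
    rw [a0, a1, a2] at this
    linarith)
  by_cases hal : IsAlgebraic ℤ u
  · exact alg_of_poly h μ u hμ.ne' F32 hF hal
  exfalso
  obtain ⟨G, hG⟩ : ∃ G : Fin 3 → ℤ[X], G = ![1 - X ^ 2, X * (1 + 1 - X ^ 2), 1] := ⟨_, rfl⟩
  have g0 : ∀ v : ℝ, aeval v (G 0) = 1 - v ^ 2 := by intro v; simp [hG]
  have g1 : ∀ v : ℝ, aeval v (G 1) = v * (2 - v ^ 2) := by intro v; simp [hG]; ring_nf; simp
  have g2 : ∀ v : ℝ, aeval v (G 2) = 1 := by intro v; simp [hG]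
  have hss := Real.sin_sq_add_cos_sq x
  have A0 : A 0 = Real.pi / 2 - 3 * x := by rw [a0, t1]
  have A1 : A 1 = 2 * (2 * x) := by rw [a1, t0]
  have A2 : A 2 = Real.pi / 2 - x := by rw [a2, t0, t1]; ring
  have r1 : S 0 * aeval u (G 2) = S 2 * aeval u (G 0) := by
    rw [g0, g2, hu]
    have e := h.sineT 0 2
    rw [A0, A2, Real.sin_pi_div_two_sub, Real.sin_pi_div_two_sub, Real.cos_three_mul] at e
    apply mul_right_cancel₀ hcx.ne'
    linear_combination e + (4 * S 2 * Real.cos x) * hss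
  have r2 : S 1 * aeval u (G 2) = S 2 * aeval u (G 1) := by
    rw [g1, g2, hu]
    have e := h.sineT 1 2
    rw [A1, A2, Real.sin_pi_div_two_sub, Real.sin_two_mul (2 * x), Real.cos_two_mul,
      Real.sin_two_mul] at e
    apply mul_right_cancel₀ hcx.ne'
    linear_combination e + (8 * S 2 * Real.sin x * Real.cos x) * hss
  have E1 := cross h μ u hμ.ne' F32 hF hal G 0 2 r1
  have E2 := cross h μ u hμ.ne' F32 hF hal G 1 2 r2
  simp only [Fin.sum_univ_three, F32_0, F32_1, F32_2, g0, g1, g2] at E1 E2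
  have n : ∀ i j, (0 : ℝ) ≤ β i j := fun i j => Nat.cast_nonneg _
  have p1 := E1 0
  have p2 := E1 1
  have p3 := E1 (-1)
  have p4 := E1 2
  have p5 := E1 (-2)
  have q1 := E2 0
  have q2 := E2 1
  have q3 := E2 (-1)
  have q4 := E2 2
  have q5 := E2 (-2)
  norm_num at p1 p2 p3 p4 p5 q1 q2 q3 q4 q5
  refine S_zero h 2 ?_ ?_ ?_ <;>
    linarith [n 0 0, n 0 1, n 0 2, n 1 0, n 1 1, n 1 2, n 2 0, n 2 1, n 2 2]

end Pool.Agent.V1146.SQ.Shapes
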