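import Mathlib
import Pool.Agent.V1146.SQ.Trans
set_option autoImplicit false
noncomputable section
open scoped BigOperators
open Polynomial

namespace Pool.Agent.V1146.SQ.Shapes2
open Pool.Agent.Helper549.Tri
open Pool.Agent.V1146.SQ.Sim
open Pool.Agent.V1146.SQ.Trans

variable {N : ℕ} {ℓ θ S A : Fin 3 → ℝ} {κ β : Fin 3 → Fin 3 → ℕ}

theorem S_zero (h : Data N ℓ θ S A κ β) (j : Fin 3) (h0 : (β j 0 : ℝ) ≤ 0) (h1 : (β j 1 : ℝ) ≤ 0)
    (h2 : (β j 2 : ℝ) ≤ 0) : False := by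
  have e := h.side j
  rw [Fin.sum_univ_three] at e
  have p := h.Spos j
  have e0 : (β j 0 : ℝ) = 0 := le_antisymm h0 (Nat.cast_nonneg _)
  have e1 : (β j 1 : ℝ) = 0 := le_antisymm h1 (Nat.cast_nonneg _)
  have e2 : (β j 2 : ℝ) = 0 := le_antisymm h2 (Nat.cast_nonneg _)
  rw [e0, e1, e2] at e
  linarith

/-- T = (a, 2b, 2a+b) with a+b = pi/3 -/
theorem shapeVI (h : Data N ℓ θ S A ![![1,0,0],![0,2,0],![2,1,0]] β) : Alg S := by
  have a0 := h.angles 0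
  have a1 := h.angles 1
  have a2 := h.angles 2
  simp [Fin.sum_univ_three] at a0 a1 a2
  have ht : θ 0 + θ 1 = Real.pi / 3 := by
    have := h.Asum
    rw [a0, a1, a2] at this
    linarith
  obtain ⟨μ, u, c, hμ, hc, hl, hquad, hc3, hcos0, hcos1, hsb, hsa, hF⟩ := tile33 h ht
  by_cases hal : IsAlgebraic ℤ u
  · exact alg_of_poly h μ u hμ.ne' F33 hF hal
  exfalso
  obtain ⟨G, hG⟩ : ∃ G : Fin 3 → ℤ[X], G = ![F33 0 * F33 2, F33 1 * (F33 0 + F33 0 + F33 1),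
    (F33 0 + F33 1) * F33 2] := ⟨_, rfl⟩
  have g0 : ∀ v : ℝ, aeval v (G 0) = aeval v (F33 0) * aeval v (F33 2) := by
    intro v; rw [hG]; simp
  have g1 : ∀ v : ℝ, aeval v (G 1) = aeval v (F33 1) * (aeval v (F33 0) + aeval v (F33 0) +
      aeval v (F33 1)) := by
    intro v; rw [hG]; simp
  have g2 : ∀ v : ℝ, aeval v (G 2) = (aeval v (F33 0) + aeval v (F33 1)) * aeval v (F33 2) := by
    intro v; rw [hG]; simp
  have A0 : A 0 = θ 0 := a0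
  have A1 : A 1 = 2 * θ 1 := a1
  have A2 : A 2 = Real.pi / 3 + θ 0 := by rw [a2]; linarith
  have f0 := hF 0
  have f1 := hF 1
  have f2 := hF 2
  have s0 := hl 0
  have s1 := hl 1
  have R1 : S 0 * ((ℓ 0 + ℓ 1) * ℓ 2) = S 2 * (ℓ 0 * ℓ 2) := by
    have e := h.sineT 0 2
    rw [A0, A2] at e
    rw [← hsa, s0]
    linear_combination (c * ℓ 2) * e
  have R2 : S 1 * ((ℓ 0 + ℓ 1) * ℓ 2) = S 2 * (ℓ 1 * (2 * ℓ 0 + ℓ 1)) := by
    have e := h.sineT 1 2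
    rw [A1, A2, Real.sin_two_mul] at e
    rw [← hsa, ← hcos1, s1]
    linear_combination (c * ℓ 2) * e
  have r1 : S 0 * aeval u (G 2) = S 2 * aeval u (G 0) := by
    rw [g0, g2]
    rw [f0, f1, f2] at R1
    apply mul_left_cancel₀ (pow_ne_zero 2 hμ.ne')
    linear_combination R1
  have r2 : S 1 * aeval u (G 2) = S 2 * aeval u (G 1) := by
    rw [g1, g2]
    rw [f0, f1, f2] at R2
    apply mul_left_cancel₀ (pow_ne_zero 2 hμ.ne')
    linear_combination R2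
  have E1 := cross h μ u hμ.ne' F33 hF hal G 0 2 r1
  have E2 := cross h μ u hμ.ne' F33 hF hal G 1 2 r2
  simp only [Fin.sum_univ_three, g0, g1, g2, F33_0, F33_1, F33_2] at E1 E2
  have n : ∀ i j, (0 : ℝ) ≤ β i j := fun i j => Nat.cast_nonneg _
  have p1 := E1 0
  have p2 := E1 1
  have p3 := E1 (-1)
  have p4 := E1 2
  have p5 := E1 (-2)
  have p6 := E1 3
  have q1 := E2 0
  have q2 := E2 1
  have q3 := E2 (-1)
  have q4 := E2 2
  have q5 := E2 (-2)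
  have q6 := E2 3
  norm_num at p1 p2 p3 p4 p5 p6 q1 q2 q3 q4 q5 q6
  refine S_zero h 2 ?_ ?_ ?_ <;>
    linarith [n 0 0, n 0 1, n 0 2, n 1 0, n 1 1, n 1 2, n 2 0, n 2 1, n 2 2]

/-- T = (2a, pi/3, 2b) with a+b = pi/3 -/
theorem shapeVII (h : Data N ℓ θ S A ![![2,0,0],![1,1,0],![0,2,0]] β) : Alg S := by
  have a0 := h.angles 0
  have a1 := h.angles 1
  have a2 := h.angles 2
  simp [Fin.sum_univ_three] at a0 a1 a2
  have ht : θ 0 + θ 1 = Real.pi / 3 := by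
    have := h.Asum
    rw [a0, a1, a2] at this
    linarith
  obtain ⟨μ, u, c, hμ, hc, hl, hquad, hc3, hcos0, hcos1, hsb, hsa, hF⟩ := tile33 h ht
  by_cases hal : IsAlgebraic ℤ u
  · exact alg_of_poly h μ u hμ.ne' F33 hF hal
  exfalso
  obtain ⟨G, hG⟩ : ∃ G : Fin 3 → ℤ[X], G = ![F33 0 * (F33 0 + F33 1 + F33 1), F33 2 * F33 2,
    F33 1 * (F33 0 + F33 0 + F33 1)] := ⟨_, rfl⟩
  have g0 : ∀ v : ℝ, aeval v (G 0) = aeval v (F33 0) * (aeval v (F33 0) + aeval v (F33 1) +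
      aeval v (F33 1)) := by
    intro v; rw [hG]; simp
  have g1 : ∀ v : ℝ, aeval v (G 1) = aeval v (F33 2) * aeval v (F33 2) := by
    intro v; rw [hG]; simp
  have g2 : ∀ v : ℝ, aeval v (G 2) = aeval v (F33 1) * (aeval v (F33 0) + aeval v (F33 0) +
      aeval v (F33 1)) := by
    intro v; rw [hG]; simp
  have A0 : A 0 = 2 * θ 0 := a0
  have A1 : A 1 = Real.pi / 3 := by rw [a1, ht]
  have A2 : A 2 = 2 * θ 1 := a2
  have f0 := hF 0
  have f1 := hF 1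
  have f2 := hF 2
  have s0 := hl 0
  have s1 := hl 1
  have R1 : S 0 * (ℓ 2 * ℓ 2) = S 1 * (ℓ 0 * (ℓ 0 + 2 * ℓ 1)) := by
    have e := h.sineT 0 1
    rw [A0, A1, Real.sin_two_mul] at e
    rw [← hcos0, s0]
    linear_combination (c * ℓ 2) * e - (S 0 * ℓ 2) * hc3
  have R2 : S 2 * (ℓ 2 * ℓ 2) = S 1 * (ℓ 1 * (2 * ℓ 0 + ℓ 1)) := by
    have e := h.sineT 2 1
    rw [A1, A2, Real.sin_two_mul] at e
    rw [← hcos1, s1]
    linear_combination (c * ℓ 2) * e - (S 2 * ℓ 2) * hc3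
  have r1 : S 0 * aeval u (G 1) = S 1 * aeval u (G 0) := by
    rw [g0, g1]
    rw [f0, f1, f2] at R1
    apply mul_left_cancel₀ (pow_ne_zero 2 hμ.ne')
    linear_combination R1
  have r2 : S 2 * aeval u (G 1) = S 1 * aeval u (G 2) := by
    rw [g1, g2]
    rw [f0, f1, f2] at R2
    apply mul_left_cancel₀ (pow_ne_zero 2 hμ.ne')
    linear_combination R2
  have E1 := cross h μ u hμ.ne' F33 hF hal G 0 1 r1
  have E2 := cross h μ u hμ.ne' F33 hF hal G 2 1 r2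
  simp only [Fin.sum_univ_three, g0, g1, g2, F33_0, F33_1, F33_2] at E1 E2
  have n : ∀ i j, (0 : ℝ) ≤ β i j := fun i j => Nat.cast_nonneg _
  have p1 := E1 0
  have p2 := E1 1
  have p3 := E1 (-1)
  have p4 := E1 2
  have p5 := E1 (-2)
  have p6 := E1 3
  have q1 := E2 0
  have q2 := E2 1
  have q3 := E2 (-1)
  have q4 := E2 2
  have q5 := E2 (-2)
  have q6 := E2 3
  norm_num at p1 p2 p3 p4 p5 p6 q1 q2 q3 q4 q5 q6
  refine S_zero h 1 ?_ ?_ ?_ <;>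
    linarith [n 0 0, n 0 1, n 0 2, n 1 0, n 1 1, n 1 2, n 2 0, n 2 1, n 2 2]

/-- T = (a, 2a, 3b) with a+b = pi/3 -/
theorem shapeIV (h : Data N ℓ θ S A ![![1,0,0],![2,0,0],![0,3,0]] β) : Alg S := by
  have a0 := h.angles 0
  have a1 := h.angles 1
  have a2 := h.angles 2
  simp [Fin.sum_univ_three] at a0 a1 a2
  have ht : θ 0 + θ 1 = Real.pi / 3 := by
    have := h.Asum
    rw [a0, a1, a2] at this
    linarith
  obtain ⟨μ, u, c, hμ, hc, hl, hquad, hc3, hcos0, hcos1, hsb, hsa, hF⟩ := tile33 h ht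
  by_cases hal : IsAlgebraic ℤ u
  · exact alg_of_poly h μ u hμ.ne' F33 hF hal
  exfalso
  obtain ⟨G, hG⟩ : ∃ G : Fin 3 → ℤ[X], G = ![F33 2 * F33 2, (F33 0 + F33 1 + F33 1) * F33 2,
    (1 + 1 + 1) * F33 1 * (F33 0 + F33 1)] := ⟨_, rfl⟩
  have g0 : ∀ v : ℝ, aeval v (G 0) = aeval v (F33 2) * aeval v (F33 2) := by
    intro v; rw [hG]; simp
  have g1 : ∀ v : ℝ, aeval v (G 1) = (aeval v (F33 0) + aeval v (F33 1) +
      aeval v (F33 1)) * aeval v (F33 2) := by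
    intro v; rw [hG]; simp
  have g2 : ∀ v : ℝ, aeval v (G 2) = (1 + 1 + 1) * aeval v (F33 1) * (aeval v (F33 0) +
      aeval v (F33 1)) := by
    intro v; rw [hG]
    simp only [Matrix.cons_val, map_mul, map_add, map_one]
  have A0 : A 0 = θ 0 := a0
  have A1 : A 1 = 2 * θ 0 := a1
  have A2 : A 2 = 3 * θ 1 := a2
  have f0 := hF 0
  have f1 := hF 1
  have f2 := hF 2
  have s0 := hl 0
  have s1 := hl 1
  have hp0 := h.lpos 0
  have hcc : c ^ 2 * 3 = 4 * ℓ 2 ^ 2 := by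
    rw [← hc3, Real.sin_pi_div_three]
    have hsq3 : Real.sqrt 3 * Real.sqrt 3 = 3 := Real.mul_self_sqrt (by norm_num)
    linear_combination (-(c ^ 2)) * hsq3
  have R1 : S 1 * (ℓ 2 * ℓ 2) = S 0 * ((ℓ 0 + 2 * ℓ 1) * ℓ 2) := by
    have e := h.sineT 1 0
    rw [A0, A1, Real.sin_two_mul] at e
    rw [← hcos0]
    apply mul_left_cancel₀ hp0.ne'
    rw [s0]
    linear_combination (c * ℓ 2 ^ 2) * e
  have R2 : S 2 * (ℓ 2 * ℓ 2) = S 0 * (3 * ℓ 1 * (ℓ 0 + ℓ 1)) := by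
    have e := h.sineT 2 0
    rw [A0, A2, Real.sin_three_mul] at e
    apply mul_left_cancel₀ (mul_ne_zero (pow_ne_zero 2 hc.ne') hp0.ne')
    have e2 : S 2 * ℓ 0 * c ^ 2 = S 0 * (3 * ℓ 1 * c ^ 2 - 4 * ℓ 1 ^ 3) := by
      rw [s0, s1]
      linear_combination c ^ 3 * e
    have e3 : ℓ 0 * (ℓ 0 + ℓ 1) = ℓ 2 ^ 2 - ℓ 1 ^ 2 := by linear_combination hquad
    linear_combination (ℓ 2 ^ 2) * e2 + (S 0 * ℓ 1 ^ 3) * hcc - (3 * S 0 * ℓ 1 * c ^ 2) * e3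
  have r1 : S 1 * aeval u (G 0) = S 0 * aeval u (G 1) := by
    rw [g0, g1]
    rw [f0, f1, f2] at R1
    apply mul_left_cancel₀ (pow_ne_zero 2 hμ.ne')
    linear_combination R1
  have r2 : S 2 * aeval u (G 0) = S 0 * aeval u (G 2) := by
    rw [g0, g2]
    rw [f0, f1, f2] at R2
    apply mul_left_cancel₀ (pow_ne_zero 2 hμ.ne')
    linear_combination R2
  have E1 := cross h μ u hμ.ne' F33 hF hal G 1 0 r1
  have E2 := cross h μ u hμ.ne' F33 hF hal G 2 0 r2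
  simp only [Fin.sum_univ_three, g0, g1, g2, F33_0, F33_1, F33_2] at E1 E2
  have n : ∀ i j, (0 : ℝ) ≤ β i j := fun i j => Nat.cast_nonneg _
  have p1 := E1 0
  have p2 := E1 1
  have p3 := E1 (-1)
  have p4 := E1 2
  have p5 := E1 (-2)
  have p6 := E1 3
  have q1 := E2 0
  have q2 := E2 1
  have q3 := E2 (-1)
  have q4 := E2 2
  have q5 := E2 (-2)
  have q6 := E2 3
  norm_num at p1 p2 p3 p4 p5 p6 q1 q2 q3 q4 q5 q6
  refine S_zero h 0 ?_ ?_ ?_ <;>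
    linarith [n 0 0, n 0 1, n 0 2, n 1 0, n 1 1, n 1 2, n 2 0, n 2 1, n 2 2]

end Pool.Agent.V1146.SQ.Shapes2
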