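import Mathlib
import Pool.Agent.V1146.SQ.Trans
set_option autoImplicit false
noncomputable section
open scoped BigOperators
open Polynomial

namespace Pool.Agent.V1146.SQ.Shapes3
open Pool.Agent.Helper549.Tri
open Pool.Agent.V1146.SQ.Sim
open Pool.Agent.V1146.SQ.Trans

variable {N : ℕ} {ℓ θ S A : Fin 3 → ℝ} {κ β : Fin 3 → Fin 3 → ℕ}

/-- T = (a, pi/3, a+2b) with a+b = pi/3 -/
theorem shapeV (h : Data N ℓ θ S A ![![1,0,0],![1,1,0],![1,2,0]] β) : Alg S := by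
  have a0 := h.angles 0
  have a1 := h.angles 1
  have a2 := h.angles 2
  simp [Fin.sum_univ_three] at a0 a1 a2
  have ht : θ 0 + θ 1 = Real.pi / 3 := by
    have := h.Asum
    rw [a0, a1, a2] at this
    linarith
  obtain ⟨μ, u, c, hμ, hc, hl, hquad, hc3, hcos0, hcos1, hsb, hsa, hF⟩ := tile33 h ht
  by_cases hal : IsAlgebraic ℤ u
  · exact alg_of_poly h μ u hμ.ne' F33 hF hal
  exfalso
  obtain ⟨G, hG⟩ : ∃ G : Fin 3 → ℤ[X], G = ![F33 0, F33 2, F33 0 + F33 1] := ⟨_, rfl⟩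
  have g0 : ∀ v : ℝ, aeval v (G 0) = aeval v (F33 0) := by
    intro v; rw [hG]; simp
  have g1 : ∀ v : ℝ, aeval v (G 1) = aeval v (F33 2) := by
    intro v; rw [hG]; simp
  have g2 : ∀ v : ℝ, aeval v (G 2) = aeval v (F33 0) + aeval v (F33 1) := by
    intro v; rw [hG]; simp
  have A0 : A 0 = θ 0 := a0
  have A1 : A 1 = Real.pi / 3 := by rw [a1, ht]
  have A2 : A 2 = Real.pi / 3 + θ 1 := by rw [a2]; linarith
  have f0 := hF 0
  have f1 := hF 1
  have f2 := hF 2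
  have s0 := hl 0
  have s1 := hl 1
  have s2 := hl 2
  have R1 : S 0 * ℓ 2 = S 1 * ℓ 0 := by
    have e := h.sineT 0 1
    rw [A0, A1] at e
    rw [s0]
    linear_combination c * e - S 0 * hc3
  have R2 : S 2 * ℓ 2 = S 1 * (ℓ 0 + ℓ 1) := by
    have e := h.sineT 2 1
    rw [A1, A2] at e
    rw [← hsb]
    linear_combination c * e - S 2 * hc3
  have r1 : S 0 * aeval u (G 1) = S 1 * aeval u (G 0) := by
    rw [g0, g1]
    rw [f0, f2] at R1
    apply mul_left_cancel₀ hμ.ne'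
    linear_combination R1
  have r2 : S 2 * aeval u (G 1) = S 1 * aeval u (G 2) := by
    rw [g1, g2]
    rw [f0, f1, f2] at R2
    apply mul_left_cancel₀ hμ.ne'
    linear_combination R2
  have E1 := cross h μ u hμ.ne' F33 hF hal G 0 1 r1
  have E2 := cross h μ u hμ.ne' F33 hF hal G 2 1 r2
  simp only [Fin.sum_univ_three, g0, g1, g2, F33_0, F33_1, F33_2] at E1 E2
  have n : ∀ i j, (0 : ℝ) ≤ β i j := fun i j => Nat.cast_nonneg _
  have p1 := E1 0
  have p2 := E1 1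
  have p3 := E1 (-1)
  have p4 := E1 2
  have p5 := E1 (-2)
  have p6 := E1 3
  have q1 := E2 0
  have q2 := E2 1
  have q3 := E2 (-1)
  have q4 := E2 2
  have q5 := E2 (-2)
  have q6 := E2 3
  norm_num at p1 p2 p3 p4 p5 p6 q1 q2 q3 q4 q5 q6
  have z0 : (β 1 0 : ℝ) = 0 := by
    linarith [n 0 0, n 0 1, n 0 2, n 1 0, n 1 1, n 1 2, n 2 0, n 2 1, n 2 2]
  have z1 : (β 1 1 : ℝ) = 0 := by
    linarith [n 0 0, n 0 1, n 0 2, n 1 0, n 1 1, n 1 2, n 2 0, n 2 1, n 2 2]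
  have hS1 := h.side 1
  rw [Fin.sum_univ_three, z0, z1, zero_mul, zero_mul, zero_add, zero_add] at hS1
  have hp0 := h.lpos 0
  have hp2 := h.lpos 2
  have har : (N : ℝ) * ℓ 1 = (β 1 2 : ℝ) ^ 2 * (ℓ 0 + ℓ 1) := by
    have e := h.area
    rw [A2] at e
    have e1 : (N : ℝ) * (ℓ 0 * ℓ 1 * ℓ 2) = S 0 * S 1 * (ℓ 0 + ℓ 1) := by
      rw [← hsb, s2]
      linear_combination c * e
    apply mul_left_cancel₀ (mul_ne_zero hp0.ne' (pow_ne_zero 2 hp2.ne'))
    rw [hS1] at R1 e1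
    linear_combination ℓ 2 * e1 + ((β 1 2 : ℝ) * ℓ 2 * (ℓ 0 + ℓ 1)) * R1
  have hP : aeval u (C (N : ℤ) * F33 1 - C ((β 1 2 : ℤ) ^ 2) * (F33 0 + F33 1)) = 0 := by
    rw [map_sub, map_mul, map_mul, aeval_C, aeval_C, map_add]
    rw [f0, f1] at har
    apply mul_left_cancel₀ hμ.ne'
    simp only [algebraMap_int_eq, eq_intCast, Int.cast_natCast, Int.cast_pow, mul_zero]
    linear_combination har
  have h0 := ident hal _ hP 0
  rw [map_sub, map_mul, map_mul, aeval_C, aeval_C, map_add, F33_0, F33_1] at h0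
  simp at h0
  have hS := h.Spos 1
  rw [hS1, h0] at hS
  simp at hS

end Pool.Agent.V1146.SQ.Shapes3
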