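import Mathlib
import Pool.Agent.V1146.SQ.Shapes
import Pool.Agent.V1146.SQ.Shapes2
import Pool.Agent.V1146.SQ.Shapes3
import Pool.Agent.Helper549.Tri.PermX
set_option autoImplicit false
noncomputable section
open scoped BigOperators

namespace Pool.Agent.V1146.SQ.Enum
open Pool.Agent.Helper549.Tri
open Pool.Agent.V1146.SQ.Sim
open Pool.Agent.V1146.SQ.Trans

variable {N : ℕ} {ℓ θ S A : Fin 3 → ℝ} {κ β : Fin 3 → Fin 3 → ℕ}

/-- what a non-square number of pieces forces -/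
def Good (N : ℕ) (S A : Fin 3 → ℝ) : Prop :=
  (∃ i j : Fin 3, i ≠ j ∧ A i = A j) ∨
  (Alg S ∧ ∃ i j k : Fin 3, i ≠ j ∧ j ≠ k ∧ i ≠ k ∧
    ((A k = Real.pi / 2 ∧ ∃ p q : ℕ, p ^ 2 + q ^ 2 = N ∧ S i * q = S j * p) ∨
    A i = 2 * A j ∨ A i = Real.pi / 3 ∨ A i = A j + Real.pi / 3 ∨ A i + 2 * A j = 2 * A k))

theorem good_perm (π : Equiv.Perm (Fin 3)) (h : Good N (fun j => S (π j)) (fun j => A (π j))) :
    Good N S A := by
  rcases h with ⟨i, j, hij, h⟩ | ⟨hS, i, j, k, hij, hjk, hik, h⟩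
  · exact Or.inl ⟨π i, π j, fun e => hij (π.injective e), h⟩
  · refine Or.inr ⟨?_, π i, π j, π k, fun e => hij (π.injective e),
      fun e => hjk (π.injective e), fun e => hik (π.injective e), h⟩
    intro a b
    have := hS (π.symm a) (π.symm b)
    simpa using this

theorem alg_right {S : Fin 3 → ℝ} {N p q : ℕ} {m ρ : ℝ} (hm : m ≠ 0) (hρ : ρ ^ 2 = N)
    (h0 : S 0 = m * p) (h1 : S 1 = m * q) (h2 : S 2 = m * ρ) : Alg S := by
  obtain ⟨a, ha⟩ : ∃ a : Fin 3 → ℝ, a = ![(p : ℝ), q, ρ] := ⟨_, rfl⟩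
  have hal : ∀ j, IsAlgebraic ℤ (a j) := by
    intro j
    have hr : IsAlgebraic ℤ ρ := by
      apply IsAlgebraic.of_pow (n := 2) (by norm_num)
      rw [hρ]
      exact isAlgebraic_natCast N
    rw [ha]
    fin_cases j
    · exact isAlgebraic_natCast p
    · exact isAlgebraic_natCast q
    · exact hr
  have hS : ∀ j, S j = m * a j := by
    intro j
    rw [ha]
    fin_cases j
    · exact h0
    · exact h1
    · exact h2
  intro i j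
  rw [hS i, hS j, mul_div_mul_left _ _ hm, div_eq_mul_inv]
  exact (hal i).mul (hal j).inv

theorem leaf_shape (hN : ¬ IsSquare N) (h : Data N ℓ θ S A κ β)
    (hk : κ = ![![1,0,0],![0,1,0],![0,0,1]] ∨ κ = ![![1,0,0],![0,1,0],![1,1,0]] ∨
      κ = ![![1,0,0],![0,1,0],![2,1,0]] ∨ κ = ![![1,0,0],![0,1,0],![2,2,0]] ∨
      κ = ![![1,0,0],![2,0,0],![0,0,1]] ∨ κ = ![![1,0,0],![2,0,0],![0,2,0]] ∨
      κ = ![![0,1,0],![2,0,0],![1,1,0]] ∨ κ = ![![1,0,0],![0,2,0],![2,1,0]] ∨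
      κ = ![![2,0,0],![1,1,0],![0,2,0]] ∨ κ = ![![1,0,0],![2,0,0],![0,3,0]] ∨
      κ = ![![1,0,0],![1,1,0],![1,2,0]]) : Good N S A := by
  rcases hk with rfl | rfl | rfl | rfl | rfl | rfl | rfl | rfl | rfl | rfl | rfl
  · exact (shapeG h hN).elim
  · obtain ⟨h1, p, q, h2, h3, m, ρ, hm, hρ, e0, e1, e2⟩ := shapeC h hN
    exact Or.inr ⟨alg_right hm hρ e0 e1 e2, 0, 1, 2, by decide, by decide, by decide,
      Or.inl ⟨h1, p, q, h2, h3⟩⟩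
  · exact (shapeD h hN).elim
  · exact (shapeF h hN).elim
  · exact (shapeB h hN).elim
  · have a0 := h.angles 0
    have a1 := h.angles 1
    simp [Fin.sum_univ_three] at a0 a1
    exact Or.inr ⟨Shapes.shapeI h, 1, 0, 2, by decide, by decide, by decide,
      Or.inr (Or.inl (by rw [a0, a1]))⟩
  · have a0 := h.angles 0
    have a1 := h.angles 1
    have a2 := h.angles 2
    simp [Fin.sum_univ_three] at a0 a1 a2
    exact Or.inr ⟨Shapes.shapeII h, 1, 0, 2, by decide, by decide, by decide,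
      Or.inr (Or.inr (Or.inr (Or.inr (by rw [a0, a1, a2]; ring))))⟩
  · have a0 := h.angles 0
    have a1 := h.angles 1
    have a2 := h.angles 2
    simp [Fin.sum_univ_three] at a0 a1 a2
    have hs := h.Asum
    exact Or.inr ⟨Shapes2.shapeVI h, 2, 0, 1, by decide, by decide, by decide,
      Or.inr (Or.inr (Or.inr (Or.inl (by linarith))))⟩
  · have a0 := h.angles 0
    have a1 := h.angles 1
    have a2 := h.angles 2
    simp [Fin.sum_univ_three] at a0 a1 a2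
    have hs := h.Asum
    exact Or.inr ⟨Shapes2.shapeVII h, 1, 0, 2, by decide, by decide, by decide,
      Or.inr (Or.inr (Or.inl (by linarith)))⟩
  · have a0 := h.angles 0
    have a1 := h.angles 1
    simp [Fin.sum_univ_three] at a0 a1
    exact Or.inr ⟨Shapes2.shapeIV h, 1, 0, 2, by decide, by decide, by decide,
      Or.inr (Or.inl (by rw [a0, a1]))⟩
  · have a0 := h.angles 0
    have a1 := h.angles 1
    have a2 := h.angles 2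
    simp [Fin.sum_univ_three] at a0 a1 a2
    have hs := h.Asum
    exact Or.inr ⟨Shapes3.shapeV h, 1, 0, 2, by decide, by decide, by decide,
      Or.inr (Or.inr (Or.inl (by linarith)))⟩

/-- the six permutations -/
def prm : List (Equiv.Perm (Fin 3)) := [1, Equiv.swap 0 1, Equiv.swap 0 2, Equiv.swap 1 2,
  Equiv.swap 0 1 * Equiv.swap 1 2, Equiv.swap 1 2 * Equiv.swap 0 1]

/-- corner matrices up to permutations -/
def lst : List (Fin 3 → Fin 3 → ℕ) :=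
  [![![1,0,0],![0,1,0],![0,0,1]], ![![1,0,0],![0,1,0],![1,1,0]],
   ![![1,0,0],![0,1,0],![2,1,0]], ![![1,0,0],![0,1,0],![2,2,0]],
   ![![1,0,0],![2,0,0],![0,0,1]], ![![1,0,0],![2,0,0],![0,2,0]],
   ![![0,1,0],![2,0,0],![1,1,0]], ![![1,0,0],![0,2,0],![2,1,0]],
   ![![2,0,0],![1,1,0],![0,2,0]], ![![1,0,0],![2,0,0],![0,3,0]],
   ![![1,0,0],![1,1,0],![1,2,0]]]

/-- the combinatorial condition checked at each corner matrix -/
def Cls (κ : Fin 3 → Fin 3 → ℕ) : Prop :=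
  κ 0 = κ 1 ∨ κ 0 = κ 2 ∨ κ 1 = κ 2 ∨ ∃ σ ∈ prm, ∃ π ∈ prm, ∃ M ∈ lst,
    (fun j k => κ (π j) (σ k)) = M

instance (κ : Fin 3 → Fin 3 → ℕ) : Decidable (Cls κ) := by
  unfold Cls
  infer_instance

theorem leaf (hN : ¬ IsSquare N) (h : Data N ℓ θ S A κ β) (hk : Cls κ) : Good N S A := by
  rcases hk with hk | hk | hk | ⟨σ, -, π, -, M, hM, hk⟩
  · exact Or.inl ⟨0, 1, by decide, by rw [h.angles 0, h.angles 1, hk]⟩
  · exact Or.inl ⟨0, 2, by decide, by rw [h.angles 0, h.angles 2, hk]⟩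
  · exact Or.inl ⟨1, 2, by decide, by rw [h.angles 1, h.angles 2, hk]⟩
  · have h1 := (h.perm_types σ).perm_corners π
    refine good_perm π (leaf_shape hN h1 ?_)
    show (fun j k => κ (π j) (σ k)) = _ ∨ (fun j k => κ (π j) (σ k)) = _ ∨ _
    rw [hk]
    simp only [lst, List.mem_cons, List.not_mem_nil, or_false] at hM
    exact hM

theorem enum_all : ∀ P : Fin 3 → ℕ, (P = ![1, 1, 1] ∨ P = ![2, 0, 1] ∨ P = ![3, 0, 1] ∨
    P = ![2, 2, 0] ∨ P = ![3, 2, 0] ∨ P = ![3, 3, 0] ∨ P = ![0, 0, 3]) →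
    ∀ κ : Fin 3 → Fin 3 → ℕ, (∀ k, ∑ j, κ j k = P k) → (∀ j, ∃ k, 0 < κ j k) → Cls κ := by
  intro P hP κ hs hr
  have p0 := hs 0
  have p1 := hs 1
  have p2 := hs 2
  rw [Fin.sum_univ_three] at p0 p1 p2
  have rr : ∀ j, 0 < κ j 0 + κ j 1 + κ j 2 := by
    intro j
    obtain ⟨k, hk⟩ := hr j
    fin_cases k <;> simp at hk <;> omega
  have r0 := rr 0
  have r1 := rr 1
  have r2 := rr 2
  have hκ : κ = ![![κ 0 0, κ 0 1, κ 0 2], ![κ 1 0, κ 1 1, κ 1 2], ![κ 2 0, κ 2 1, κ 2 2]] := by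
    ext i j
    fin_cases i <;> fin_cases j <;> rfl
  rw [hκ]
  clear hκ hs hr rr
  generalize κ 0 0 = a0 at *
  generalize κ 1 0 = a1 at *
  generalize κ 2 0 = a2 at *
  generalize κ 0 1 = b0 at *
  generalize κ 1 1 = b1 at *
  generalize κ 2 1 = b2 at *
  generalize κ 0 2 = c0 at *
  generalize κ 1 2 = c1 at *
  generalize κ 2 2 = c2 at *
  have key : ∀ Q : Fin 7, ∀ a0 a1 a2 : Fin 4, 
      a0.val + a1.val + a2.val = (![![1, 1, 1], ![2, 0, 1], ![3, 0, 1], ![2, 2, 0], ![3, 2, 0],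
        ![3, 3, 0], ![0, 0, 3]] : Fin 7 → Fin 3 → ℕ) Q 0 →
      ∀ b0 b1 b2 : Fin 4,
      b0.val + b1.val + b2.val = (![![1, 1, 1], ![2, 0, 1], ![3, 0, 1], ![2, 2, 0], ![3, 2, 0],
        ![3, 3, 0], ![0, 0, 3]] : Fin 7 → Fin 3 → ℕ) Q 1 →
      ∀ c0 c1 c2 : Fin 4,
      c0.val + c1.val + c2.val = (![![1, 1, 1], ![2, 0, 1], ![3, 0, 1], ![2, 2, 0], ![3, 2, 0],
        ![3, 3, 0], ![0, 0, 3]] : Fin 7 → Fin 3 → ℕ) Q 2 →
      0 < a0.val + b0.val + c0.val → 0 < a1.val + b1.val + c1.val →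
      0 < a2.val + b2.val + c2.val →
      Cls ![![a0.val, b0.val, c0.val], ![a1.val, b1.val, c1.val], ![a2.val, b2.val, c2.val]] := by
    decide +kernel
  rcases hP with rfl | rfl | rfl | rfl | rfl | rfl | rfl <;>
    simp only [Matrix.cons_val_zero, Matrix.cons_val_one, Matrix.cons_val] at p0 p1 p2
  · exact key 0 ⟨a0, by omega⟩ ⟨a1, by omega⟩ ⟨a2, by omega⟩ p0 ⟨b0, by omega⟩ ⟨b1, by omega⟩
      ⟨b2, by omega⟩ p1 ⟨c0, by omega⟩ ⟨c1, by omega⟩ ⟨c2, by omega⟩ p2 r0 r1 r2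
  · exact key 1 ⟨a0, by omega⟩ ⟨a1, by omega⟩ ⟨a2, by omega⟩ p0 ⟨b0, by omega⟩ ⟨b1, by omega⟩
      ⟨b2, by omega⟩ p1 ⟨c0, by omega⟩ ⟨c1, by omega⟩ ⟨c2, by omega⟩ p2 r0 r1 r2
  · exact key 2 ⟨a0, by omega⟩ ⟨a1, by omega⟩ ⟨a2, by omega⟩ p0 ⟨b0, by omega⟩ ⟨b1, by omega⟩
      ⟨b2, by omega⟩ p1 ⟨c0, by omega⟩ ⟨c1, by omega⟩ ⟨c2, by omega⟩ p2 r0 r1 r2
  · exact key 3 ⟨a0, by omega⟩ ⟨a1, by omega⟩ ⟨a2, by omega⟩ p0 ⟨b0, by omega⟩ ⟨b1, by omega⟩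
      ⟨b2, by omega⟩ p1 ⟨c0, by omega⟩ ⟨c1, by omega⟩ ⟨c2, by omega⟩ p2 r0 r1 r2
  · exact key 4 ⟨a0, by omega⟩ ⟨a1, by omega⟩ ⟨a2, by omega⟩ p0 ⟨b0, by omega⟩ ⟨b1, by omega⟩
      ⟨b2, by omega⟩ p1 ⟨c0, by omega⟩ ⟨c1, by omega⟩ ⟨c2, by omega⟩ p2 r0 r1 r2
  · exact key 5 ⟨a0, by omega⟩ ⟨a1, by omega⟩ ⟨a2, by omega⟩ p0 ⟨b0, by omega⟩ ⟨b1, by omega⟩
      ⟨b2, by omega⟩ p1 ⟨c0, by omega⟩ ⟨c1, by omega⟩ ⟨c2, by omega⟩ p2 r0 r1 r2
  · exact key 6 ⟨a0, by omega⟩ ⟨a1, by omega⟩ ⟨a2, by omega⟩ p0 ⟨b0, by omega⟩ ⟨b1, by omega⟩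
      ⟨b2, by omega⟩ p1 ⟨c0, by omega⟩ ⟨c1, by omega⟩ ⟨c2, by omega⟩ p2 r0 r1 r2

theorem data_good (hN : ¬ IsSquare N) (h : Data N ℓ θ S A κ β) (σ : Equiv.Perm (Fin 3))
    (P : Fin 3 → ℕ) (hP : ∀ k, ∑ j, κ j (σ k) = P k)
    (hc : P = ![1, 1, 1] ∨ P = ![2, 0, 1] ∨ P = ![3, 0, 1] ∨ P = ![2, 2, 0] ∨ P = ![3, 2, 0] ∨
        P = ![3, 3, 0] ∨ P = ![0, 0, 3]) : Good N S A := by
  have h1 := h.perm_types σ
  exact leaf hN h1 (enum_all P hc _ hP h1.kpos)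

end Pool.Agent.V1146.SQ.Enum
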