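import Mathlib
import Pool.Agent.V1146.SQ.Enum
import Pool.Agent.Helper549.Tri.Setup
import Pool.Agent.Helper549.Tri.SqDefs
import Pool.Agent.Helper549.Tri.DataDis
import Pool.Agent.Helper549.Tri.ClassDis
import Pool.Agent.Helper549.Tri.Vertex
set_option autoImplicit false
noncomputable section
open scoped BigOperators

namespace Pool.Agent.V1146.SQ.Main
open Pool.Agent.Helper549.Tri
open Pool.Agent.V1146.SQ.Trans
open Pool.Agent.V1146.SQ.Enum

theorem cut_good {T : Fin 3 → EuclideanSpace ℝ (Fin 2)} (hT : AffineIndependent ℝ T) {N : ℕ}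
    (hN1 : 1 ≤ N) (hcut : CanCut T N) (hN : ¬ IsSquare N) :
    (∀ i, ∃ q : ℚ, Pool.Agent.Helper549.Tri.angle T i = q * Real.pi) ∨
      Good N (side T) (Pool.Agent.Helper549.Tri.angle T) := by
  obtain ⟨P, hP, hcong, hU, hD⟩ := hcut
  have hN2 : 2 ≤ N := by
    by_contra hcon
    have : N = 1 := by omega
    exact hN ⟨1, by omega⟩
  have : NeZero N := ⟨by omega⟩
  have hdist : ∀ i, ∃ σ : Equiv.Perm (Fin 3), ∀ k l,
      dist (P i k) (P i l) = dist (P 0 (σ k)) (P 0 (σ l)) := by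
    intro i
    obtain ⟨f, hf⟩ := hcong 0 i
    exact Setup.cong_perm (P 0) (P i) (hP 0) (hP i) f hf
  obtain ⟨TC, t, τ, ℓ, θ, ρ, h, hlen, hang, hTl⟩ := Setup.setup T P hT hP hdist hU hD
  have hS : ∀ k, len TC k = side T (ρ k) := by
    intro k
    rw [hTl k]
    unfold side
    rcases Setup.perm3 ρ k with ⟨h1, h2⟩ | ⟨h1, h2⟩
    · rw [h1, h2]
    · rw [h1, h2, dist_comm]
  have hd : ∀ a b, dist (TC a) (TC b) = dist (T (ρ a)) (T (ρ b)) := by
    have e0 : dist (TC 2) (TC 1) = dist (T (ρ 1)) (T (ρ 2)) := by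
      rw [dist_eq_norm]; exact hTl 0
    have e1 : dist (TC 0) (TC 2) = dist (T (ρ 2)) (T (ρ 0)) := by
      rw [dist_eq_norm]; exact hTl 1
    have e2 : dist (TC 1) (TC 0) = dist (T (ρ 0)) (T (ρ 1)) := by
      rw [dist_eq_norm]; exact hTl 2
    intro a b
    fin_cases a <;> fin_cases b
    · simp
    · show dist (TC 0) (TC 1) = dist (T (ρ 0)) (T (ρ 1))
      rw [dist_comm, e2]
    · show dist (TC 0) (TC 2) = dist (T (ρ 0)) (T (ρ 2))
      rw [e1, dist_comm]
    · show dist (TC 1) (TC 0) = dist (T (ρ 1)) (T (ρ 0))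
      rw [e2, dist_comm]
    · simp
    · show dist (TC 1) (TC 2) = dist (T (ρ 1)) (T (ρ 2))
      rw [dist_comm, e0]
    · show dist (TC 2) (TC 0) = dist (T (ρ 2)) (T (ρ 0))
      rw [dist_comm, e1]
    · show dist (TC 2) (TC 1) = dist (T (ρ 2)) (T (ρ 1))
      rw [e0, dist_comm]
    · simp
  have hA : ∀ k, ang TC k = Pool.Agent.Helper549.Tri.angle T (ρ k) := by
    intro k
    unfold ang Pool.Agent.Helper549.Tri.angle
    rw [Setup.angle_of_dist (TC (k + 1)) (TC k) (TC (k + 2)) (T (ρ (k + 1))) (T (ρ k))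
      (T (ρ (k + 2))) (hd _ _) (hd _ _) (hd _ _)]
    rcases Setup.perm3 ρ k with ⟨h1, h2⟩ | ⟨h1, h2⟩
    · rw [h1, h2]
    · rw [h1, h2, EuclideanGeometry.angle_comm]
  by_cases hirr : ∀ k, ∃ q : ℚ, θ k = q * Real.pi
  · left
    intro i
    choose q hq using hirr
    have h1 := Vertex.corner_angles h τ θ hang (ρ.symm i)
    rw [hA, Equiv.apply_symm_apply] at h1
    refine ⟨∑ k, (cnt t τ (TC (ρ.symm i)) k : ℚ) * q k, ?_⟩
    rw [← h1]
    push_cast
    rw [Finset.sum_mul]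
    refine Finset.sum_congr rfl fun k _ => ?_
    rw [hq k]
    ring
  · right
    have hdata := DataDis.data_of_dis hN2 h τ ℓ θ hlen hang hirr
    obtain ⟨σ, P', hP', hc⟩ := ClassDis.class_of_dis (by omega) h τ θ hang hirr
    have hg := data_good hN hdata σ P' hP' hc
    apply good_perm ρ
    have e1 : (fun j => side T (ρ j)) = len TC := by
      funext j; exact (hS j).symm
    have e2 : (fun j => Pool.Agent.Helper549.Tri.angle T (ρ j)) = ang TC := by
      funext j; exact (hA j).symm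
    rw [e1, e2]
    exact hg

end Pool.Agent.V1146.SQ.Main
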