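import Mathlib

/-!
Abstract tilings and the tiling of a large cell into unit cells, copied from the hand-in
MP_d0305a_co.FinerTiling of the team.
-/

set_option autoImplicit false

namespace Pool.Agent.V1146.SQ.GTL

open Set

noncomputable section

/-! ### Abstract tilings -/

/-- `T` is the union of `N` sets with the property `G` whose interiors are pairwise disjoint. -/
def GT {X : Type} [TopologicalSpace X] (G : Set X → Prop) (T : Set X) (N : ℕ) : Prop :=
  ∃ K : Fin N → Set X, (∀ i, G (K i)) ∧ (⋃ i, K i) = T ∧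
    ∀ i j, i ≠ j → Disjoint (interior (K i)) (interior (K j))

section
variable {X Y : Type} [TopologicalSpace X] [TopologicalSpace Y]

lemma GT.one {G : Set X → Prop} {T : Set X} (h : G T) : GT G T 1 := by
  refine ⟨fun _ => T, fun _ => h, iUnion_const T, ?_⟩
  intro i j hij
  exact absurd (Subsingleton.elim i j) hij

lemma GT.empty {G : Set X → Prop} {T : Set X} (h : T = ∅) : GT G T 0 :=
  ⟨fun i => i.elim0, fun i => i.elim0, by simp [h], fun i => i.elim0⟩

lemma append_iUnion {N₁ N₂ : ℕ} (K₁ : Fin N₁ → Set X) (K₂ : Fin N₂ → Set X) :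
    (⋃ i, Fin.append K₁ K₂ i) = (⋃ i, K₁ i) ∪ ⋃ i, K₂ i := by
  ext x
  simp only [mem_iUnion, mem_union]
  constructor
  · rintro ⟨i, hi⟩
    revert hi
    refine Fin.addCases (fun i => ?_) (fun i => ?_) i
    · rw [Fin.append_left]; exact fun h => Or.inl ⟨i, h⟩
    · rw [Fin.append_right]; exact fun h => Or.inr ⟨i, h⟩
  · rintro (⟨i, hi⟩ | ⟨i, hi⟩)
    · exact ⟨Fin.castAdd N₂ i, by rw [Fin.append_left]; exact hi⟩
    · exact ⟨Fin.natAdd N₁ i, by rw [Fin.append_right]; exact hi⟩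

lemma append_good {G : Set X → Prop} {N₁ N₂ : ℕ} {K₁ : Fin N₁ → Set X} {K₂ : Fin N₂ → Set X}
    (g₁ : ∀ i, G (K₁ i)) (g₂ : ∀ i, G (K₂ i)) : ∀ i, G (Fin.append K₁ K₂ i) := by
  intro i
  refine Fin.addCases (fun i => ?_) (fun i => ?_) i
  · rw [Fin.append_left]; exact g₁ i
  · rw [Fin.append_right]; exact g₂ i

lemma append_disj {N₁ N₂ : ℕ} {K₁ : Fin N₁ → Set X} {K₂ : Fin N₂ → Set X}
    (d₁ : ∀ i j, i ≠ j → Disjoint (interior (K₁ i)) (interior (K₁ j)))
    (d₂ : ∀ i j, i ≠ j → Disjoint (interior (K₂ i)) (interior (K₂ j)))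
    (d : ∀ i j, Disjoint (interior (K₁ i)) (interior (K₂ j))) :
    ∀ i j, i ≠ j → Disjoint (interior (Fin.append K₁ K₂ i)) (interior (Fin.append K₁ K₂ j)) := by
  intro i j
  refine Fin.addCases (fun i => ?_) (fun i => ?_) i
  · refine Fin.addCases (fun j => ?_) (fun j => ?_) j
    · intro hij
      rw [Fin.append_left, Fin.append_left]
      exact d₁ i j (fun h => hij (by rw [h]))
    · intro _
      rw [Fin.append_left, Fin.append_right]
      exact d i j
  · refine Fin.addCases (fun j => ?_) (fun j => ?_) j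
    · intro _
      rw [Fin.append_left, Fin.append_right]
      exact (d j i).symm
    · intro hij
      rw [Fin.append_right, Fin.append_right]
      exact d₂ i j (fun h => hij (by rw [h]))

lemma GT.union {G : Set X → Prop} {T₁ T₂ : Set X} {N₁ N₂ : ℕ} (h₁ : GT G T₁ N₁)
    (h₂ : GT G T₂ N₂) (hd : Disjoint (interior T₁) (interior T₂)) :
    GT G (T₁ ∪ T₂) (N₁ + N₂) := by
  obtain ⟨K₁, g₁, u₁, d₁⟩ := h₁
  obtain ⟨K₂, g₂, u₂, d₂⟩ := h₂
  have s₁ : ∀ i, interior (K₁ i) ⊆ interior T₁ := fun i =>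
    interior_mono (by rw [← u₁]; exact subset_iUnion K₁ i)
  have s₂ : ∀ i, interior (K₂ i) ⊆ interior T₂ := fun i =>
    interior_mono (by rw [← u₂]; exact subset_iUnion K₂ i)
  exact ⟨Fin.append K₁ K₂, append_good g₁ g₂, by rw [append_iUnion, u₁, u₂],
    append_disj d₁ d₂ (fun i j => hd.mono (s₁ i) (s₂ j))⟩

lemma GT.union3 {G : Set X → Prop} {T₁ T₂ T₃ : Set X} {N₁ N₂ N₃ : ℕ} (h₁ : GT G T₁ N₁)
    (h₂ : GT G T₂ N₂) (h₃ : GT G T₃ N₃) (hd : Disjoint (interior T₁) (interior T₂))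
    (hd' : Disjoint (interior T₁) (interior T₃)) (hd'' : Disjoint (interior T₂) (interior T₃)) :
    GT G (T₁ ∪ T₂ ∪ T₃) (N₁ + N₂ + N₃) := by
  obtain ⟨K₁, g₁, u₁, d₁⟩ := h₁
  obtain ⟨K₂, g₂, u₂, d₂⟩ := h₂
  obtain ⟨K₃, g₃, u₃, d₃⟩ := h₃
  have s₁ : ∀ i, interior (K₁ i) ⊆ interior T₁ := fun i =>
    interior_mono (by rw [← u₁]; exact subset_iUnion K₁ i)
  have s₂ : ∀ i, interior (K₂ i) ⊆ interior T₂ := fun i =>
    interior_mono (by rw [← u₂]; exact subset_iUnion K₂ i)
  have s₃ : ∀ i, interior (K₃ i) ⊆ interior T₃ := fun i =>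
    interior_mono (by rw [← u₃]; exact subset_iUnion K₃ i)
  refine ⟨Fin.append (Fin.append K₁ K₂) K₃, append_good (append_good g₁ g₂) g₃,
    by rw [append_iUnion, append_iUnion, u₁, u₂, u₃],
    append_disj (append_disj d₁ d₂ (fun i j => hd.mono (s₁ i) (s₂ j))) d₃ ?_⟩
  intro i j
  refine Fin.addCases (fun i => ?_) (fun i => ?_) i
  · rw [Fin.append_left]
    exact hd'.mono (s₁ i) (s₃ j)
  · rw [Fin.append_right]
    exact hd''.mono (s₂ i) (s₃ j)

lemma GT.map {G : Set X → Prop} {G' : Set Y → Prop} (h : X ≃ₜ Y)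
    (hG : ∀ K, G K → G' (h '' K)) {T : Set X} {N : ℕ} (hT : GT G T N) : GT G' (h '' T) N := by
  obtain ⟨K, g, u, d⟩ := hT
  refine ⟨fun i => h '' K i, fun i => hG _ (g i), ?_, ?_⟩
  · rw [← u, image_iUnion]
  · intro i j hij
    rw [← h.image_interior, ← h.image_interior]
    exact (disjoint_image_iff h.injective).2 (d i j hij)

lemma GT.mono {G G' : Set X → Prop} (hG : ∀ K, G K → G' K) {T : Set X} {N : ℕ}
    (hT : GT G T N) : GT G' T N := by
  obtain ⟨K, g, u, d⟩ := hT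
  exact ⟨K, fun i => hG _ (g i), u, d⟩

end

/-! ### Separation in the coordinate plane -/

lemma sep {T₁ T₂ : Set (ℝ × ℝ)} (α β s : ℝ) (h : α ≠ 0 ∨ β ≠ 0)
    (h₁ : ∀ p ∈ T₁, α * p.1 + β * p.2 ≤ s) (h₂ : ∀ p ∈ T₂, s ≤ α * p.1 + β * p.2) :
    Disjoint (interior T₁) (interior T₂) := by
  rw [Set.disjoint_left]
  intro p hp1 hp2
  have hpos : 0 < α ^ 2 + β ^ 2 := by
    rcases h with h | h
    · have := sq_nonneg β; positivity
    · have := sq_nonneg α; positivity
  set U : Set (ℝ × ℝ) := interior T₁ ∩ interior T₂ with hU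
  have hUo : IsOpen U := isOpen_interior.inter isOpen_interior
  have hcont : Continuous (fun t : ℝ => ((p.1 + t * α, p.2 + t * β) : ℝ × ℝ)) := by fun_prop
  have hV : IsOpen ((fun t : ℝ => ((p.1 + t * α, p.2 + t * β) : ℝ × ℝ)) ⁻¹' U) :=
    hUo.preimage hcont
  have h0 : (0 : ℝ) ∈ (fun t : ℝ => ((p.1 + t * α, p.2 + t * β) : ℝ × ℝ)) ⁻¹' U := by
    simp only [mem_preimage, zero_mul, add_zero]
    exact ⟨hp1, hp2⟩
  obtain ⟨ε, hε, hball⟩ := Metric.isOpen_iff.1 hV 0 h0
  have m1 : (ε / 2) ∈ Metric.ball (0 : ℝ) ε := by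
    rw [Metric.mem_ball, Real.dist_eq, sub_zero, abs_of_pos (by linarith)]; linarith
  have m2 : (-(ε / 2)) ∈ Metric.ball (0 : ℝ) ε := by
    rw [Metric.mem_ball, Real.dist_eq, sub_zero, abs_neg, abs_of_pos (by linarith)]; linarith
  have k1 := hball m1
  have k2 := hball m2
  simp only [mem_preimage] at k1 k2
  have e1 := h₁ _ (interior_subset k1.1)
  have e2 := h₂ _ (interior_subset k2.2)
  simp only at e1 e2
  have : 0 < (ε / 2) * (α ^ 2 + β ^ 2) := by positivity
  nlinarith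

/-! ### The unit cells -/

/-- upward unit cell -/
def up (x y : ℝ) : Set (ℝ × ℝ) := {p | x ≤ p.1 ∧ y ≤ p.2 ∧ p.1 + p.2 ≤ x + y + 1}
/-- downward unit cell -/
def dn (x y : ℝ) : Set (ℝ × ℝ) := {p | p.1 ≤ x ∧ p.2 ≤ y ∧ x + y - 1 ≤ p.1 + p.2}
/-- unit cells -/
def G0 (K : Set (ℝ × ℝ)) : Prop := ∃ x y : ℝ, K = up x y ∨ K = dn x y
/-- rectangle in coordinates -/
def Rect (x y p q : ℝ) : Set (ℝ × ℝ) := {z | x ≤ z.1 ∧ z.1 ≤ x + p ∧ y ≤ z.2 ∧ z.2 ≤ y + q}
/-- large upward cell -/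
def Tri (x y k : ℝ) : Set (ℝ × ℝ) := {z | x ≤ z.1 ∧ y ≤ z.2 ∧ z.1 + z.2 ≤ x + y + k}

lemma unit_rect (x y : ℝ) : GT G0 (Rect x y 1 1) 2 := by
  have h := GT.union (GT.one (G := G0) (T := up x y) ⟨x, y, Or.inl rfl⟩)
    (GT.one (G := G0) (T := dn (x + 1) (y + 1)) ⟨x + 1, y + 1, Or.inr rfl⟩)
    (sep 1 1 (x + y + 1) (Or.inl one_ne_zero)
      (fun p hp => by have := hp.2.2; linarith) (fun p hp => by have := hp.2.2; linarith))
  convert h using 1
  ext z
  simp only [Rect, up, dn, mem_ofPred_eq, mem_union]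
  constructor
  · rintro ⟨h1, h2, h3, h4⟩
    rcases le_total (z.1 + z.2) (x + y + 1) with h | h
    · exact Or.inl ⟨h1, h3, h⟩
    · exact Or.inr ⟨h2, h4, by linarith⟩
  · rintro (⟨h1, h2, h3⟩ | ⟨h1, h2, h3⟩)
    · exact ⟨h1, by linarith, h2, by linarith⟩
    · exact ⟨by linarith, h1, by linarith, h2⟩

lemma row_rect (x y : ℝ) (p : ℕ) : GT G0 (Rect x y (p + 1 : ℕ) 1) (2 * (p + 1)) := by
  induction p generalizing x with
  | zero => simpa using unit_rect x y
  | succ p ih =>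
    have h := GT.union (unit_rect x y) (ih (x + 1))
      (sep 1 0 (x + 1) (Or.inl one_ne_zero)
        (fun z hz => by have := hz.2.1; linarith) (fun z hz => by have := hz.1; linarith))
    convert h using 1
    · ext z
      simp only [Rect, mem_ofPred_eq, mem_union]
      push_cast
      have hp : (0 : ℝ) ≤ p := Nat.cast_nonneg p
      constructor
      · rintro ⟨h1, h2, h3, h4⟩
        rcases le_total z.1 (x + 1) with h | h
        · exact Or.inl ⟨h1, h, h3, h4⟩
        · exact Or.inr ⟨h, by linarith, h3, h4⟩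
      · rintro (⟨h1, h2, h3, h4⟩ | ⟨h1, h2, h3, h4⟩)
        · exact ⟨h1, by linarith, h3, h4⟩
        · exact ⟨by linarith, by linarith, h3, h4⟩
    · ring

lemma rect_pos (x y : ℝ) (p q : ℕ) :
    GT G0 (Rect x y (p + 1 : ℕ) (q + 1 : ℕ)) (2 * (p + 1) * (q + 1)) := by
  induction q generalizing y with
  | zero => simpa using row_rect x y p
  | succ q ih =>
    have h := GT.union (row_rect x y p) (ih (y + 1))
      (sep 0 1 (y + 1) (Or.inr one_ne_zero)
        (fun z hz => by have := hz.2.2.2; linarith) (fun z hz => by have := hz.2.2.1; linarith))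
    convert h using 1
    · ext z
      simp only [Rect, mem_ofPred_eq, mem_union]
      push_cast
      have hq : (0 : ℝ) ≤ q := Nat.cast_nonneg q
      constructor
      · rintro ⟨h1, h2, h3, h4⟩
        rcases le_total z.2 (y + 1) with h | h
        · exact Or.inl ⟨h1, h2, h3, h⟩
        · exact Or.inr ⟨h1, h2, h, by linarith⟩
      · rintro (⟨h1, h2, h3, h4⟩ | ⟨h1, h2, h3, h4⟩)
        · exact ⟨h1, h2, h3, by linarith⟩
        · exact ⟨h1, h2, by linarith, by linarith⟩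
    · ring

lemma tri_pos (x y : ℝ) (k : ℕ) : GT G0 (Tri x y (k + 1 : ℕ)) ((k + 1) ^ 2) := by
  induction k generalizing y with
  | zero =>
    have : Tri x y ((0 + 1 : ℕ) : ℝ) = up x y := by
      ext z; simp [Tri, up]
    rw [this]
    simpa using GT.one (G := G0) (T := up x y) ⟨x, y, Or.inl rfl⟩
  | succ k ih =>
    have hk : (0 : ℝ) ≤ k := Nat.cast_nonneg k
    have h1 := GT.union (row_rect x y k)
      (GT.one (G := G0) (T := up (x + (k + 1 : ℕ)) y) ⟨_, y, Or.inl rfl⟩)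
      (sep 1 0 (x + (k + 1 : ℕ)) (Or.inl one_ne_zero)
        (fun z hz => by have := hz.2.1; linarith) (fun z hz => by have := hz.1; linarith))
    have h := GT.union h1 (ih (y + 1))
      (sep 0 1 (y + 1) (Or.inr one_ne_zero)
        (fun z hz => by
          rcases hz with hz | hz
          · have := hz.2.2.2; linarith
          · have h1 := hz.2.2; have h2 := hz.1; linarith)
        (fun z hz => by have := hz.2.1; linarith))
    convert h using 1
    · ext z
      simp only [Rect, Tri, up, mem_ofPred_eq, mem_union]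
      push_cast
      constructor
      · rintro ⟨h1, h2, h3⟩
        rcases le_total z.2 (y + 1) with h | h
        · rcases le_total z.1 (x + (k + 1)) with h' | h'
          · exact Or.inl (Or.inl ⟨h1, h', h2, h⟩)
          · exact Or.inl (Or.inr ⟨h', h2, by linarith⟩)
        · exact Or.inr ⟨h1, h, by linarith⟩
      · rintro ((⟨h1, h2, h3, h4⟩ | ⟨h1, h2, h3⟩) | ⟨h1, h2, h3⟩)
        · exact ⟨h1, h3, by linarith⟩
        · exact ⟨by linarith, h2, by linarith⟩
        · exact ⟨h1, by linarith, by linarith⟩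
    · ring



end

end Pool.Agent.V1146.SQ.GTL
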