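import Mathlib
import Pool.Agent.V1146.SQ.GT
import Pool.Agent.V1146.SQ.Iso
set_option autoImplicit false
noncomputable section
open scoped BigOperators
open Set

namespace Pool.Agent.V1146.SQ.Right
open Pool.Agent.Helper549.Tri
open Pool.Agent.V1146.SQ.Iso (E hull_iff)
open Pool.Agent.V1146.SQ.GTL

/-- linear chart -/
def L (u v : E) : ℝ × ℝ →ₗ[ℝ] E :=
  (LinearMap.fst ℝ ℝ ℝ).smulRight u + (LinearMap.snd ℝ ℝ ℝ).smulRight v

theorem L_apply (u v : E) (z : ℝ × ℝ) : L u v z = z.1 • u + z.2 • v := by simp [L]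

theorem L_inj {u v : E} (h : ∀ s t : ℝ, s • u + t • v = 0 → s = 0 ∧ t = 0) :
    Function.Injective (L u v) := by
  rw [← LinearMap.ker_eq_bot, LinearMap.ker_eq_bot']
  intro z hz
  rw [L_apply] at hz
  obtain ⟨h1, h2⟩ := h _ _ hz
  exact Prod.ext h1 h2

/-- the chart as a homeomorphism -/
def ch (P u v : E) (h : ∀ s t : ℝ, s • u + t • v = 0 → s = 0 ∧ t = 0) : (ℝ × ℝ) ≃ₜ E :=
  ((LinearMap.linearEquivOfInjective (L u v) (L_inj h)
    (by simp)).toContinuousLinearEquiv.toHomeomorph).trans (Homeomorph.addRight P)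

theorem ch_apply (P u v : E) (h : ∀ s t : ℝ, s • u + t • v = 0 → s = 0 ∧ t = 0) (z : ℝ × ℝ) :
    ch P u v h z = z.1 • u + z.2 • v + P := by
  rw [← L_apply]
  rfl

/-- the cell spanned by two vectors -/
def Cell (u v : E) : Set E := L u v '' up 0 0
/-- congruent to the cell -/
def G (u v : E) (K : Set E) : Prop := ∃ f : E ≃ᵢ E, f '' Cell u v = K

theorem chart_cell (P u v : E) (h : ∀ s t : ℝ, s • u + t • v = 0 → s = 0 ∧ t = 0) :
    ∀ K, G0 K → G u v (ch P u v h '' K) := by
  rintro K ⟨x, y, rfl | rfl⟩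
  · refine ⟨IsometryEquiv.addRight (x • u + y • v + P), ?_⟩
    ext w
    constructor
    · rintro ⟨_, ⟨z, ⟨h1, h2, h3⟩, rfl⟩, rfl⟩
      refine ⟨(z.1 + x, z.2 + y), ⟨?_, ?_, ?_⟩, ?_⟩
      · simp only; linarith
      · simp only; linarith
      · simp only; linarith
      · rw [ch_apply, L_apply, IsometryEquiv.addRight_apply]
        simp only
        module
    · rintro ⟨z, ⟨h1, h2, h3⟩, rfl⟩
      refine ⟨_, ⟨(z.1 - x, z.2 - y), ⟨?_, ?_, ?_⟩, rfl⟩, ?_⟩
      · simp only; linarith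
      · simp only; linarith
      · simp only; linarith
      · rw [ch_apply, L_apply, IsometryEquiv.addRight_apply]
        simp only
        module
  · refine ⟨IsometryEquiv.subLeft (x • u + y • v + P), ?_⟩
    ext w
    constructor
    · rintro ⟨_, ⟨z, ⟨h1, h2, h3⟩, rfl⟩, rfl⟩
      refine ⟨(x - z.1, y - z.2), ⟨?_, ?_, ?_⟩, ?_⟩
      · simp only; linarith
      · simp only; linarith
      · simp only; linarith
      · rw [ch_apply, L_apply, IsometryEquiv.subLeft_apply]
        simp only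
        module
    · rintro ⟨z, ⟨h1, h2, h3⟩, rfl⟩
      refine ⟨_, ⟨(x - z.1, y - z.2), ⟨?_, ?_, ?_⟩, rfl⟩, ?_⟩
      · simp only; linarith
      · simp only; linarith
      · simp only; linarith
      · rw [ch_apply, L_apply, IsometryEquiv.subLeft_apply]
        simp only
        module

theorem tri_hull (P u v : E) (h : ∀ s t : ℝ, s • u + t • v = 0 → s = 0 ∧ t = 0) (k : ℝ)
    (hk : 0 < k) : ch P u v h '' Tri 0 0 k =
      convexHull ℝ (Set.range ![P, k • u + P, k • v + P]) := by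
  ext w
  rw [hull_iff]
  constructor
  · rintro ⟨z, ⟨h1, h2, h3⟩, rfl⟩
    refine ⟨1 - (z.1 + z.2) / k, z.1 / k, z.2 / k, ?_, by positivity, by positivity, ?_, ?_⟩
    · have : (z.1 + z.2) / k ≤ 1 := by
        rw [div_le_one hk]; linarith
      linarith
    · field_simp; ring
    · rw [ch_apply]
      have e1 : z.1 • u = (z.1 / k) • (k • u) := by
        rw [smul_smul, div_mul_cancel₀ _ hk.ne']
      have e2 : z.2 • v = (z.2 / k) • (k • v) := by
        rw [smul_smul, div_mul_cancel₀ _ hk.ne']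
      rw [e1, e2]
      have e3 : (z.1 + z.2) / k = z.1 / k + z.2 / k := by ring
      rw [e3]
      module
  · rintro ⟨α, β, γ, h0, h1, h2, h3, rfl⟩
    refine ⟨(k * β, k * γ), ⟨by positivity, by positivity, ?_⟩, ?_⟩
    · simp only
      nlinarith
    · rw [ch_apply]
      have : α = 1 - β - γ := by linarith
      rw [this]
      simp only
      module

theorem cell_hull (u v : E) (h : ∀ s t : ℝ, s • u + t • v = 0 → s = 0 ∧ t = 0) :
    Cell u v = convexHull ℝ (Set.range ![0, u, v]) := by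
  have h1 := tri_hull 0 u v h 1 one_pos
  rw [one_smul, one_smul, add_zero, add_zero] at h1
  rw [← h1]
  unfold Cell
  have h2 : up 0 0 = Tri 0 0 1 := by
    ext z; simp [up, Tri]
  rw [h2]
  apply Set.image_congr
  intro z _
  rw [ch_apply, L_apply, add_zero]

theorem indep_orth {u v : E} (h : inner ℝ u v = 0) (hu : u ≠ 0) (hv : v ≠ 0) :
    ∀ s t : ℝ, s • u + t • v = 0 → s = 0 ∧ t = 0 := by
  intro s t hst
  have hu2 : (0 : ℝ) < inner ℝ u u := real_inner_self_pos.2 hu
  have hv2 : (0 : ℝ) < inner ℝ v v := real_inner_self_pos.2 hv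
  have h1 : inner ℝ u (s • u + t • v) = 0 := by rw [hst, inner_zero_right]
  have h2 : inner ℝ v (s • u + t • v) = 0 := by rw [hst, inner_zero_right]
  rw [inner_add_right, inner_smul_right, inner_smul_right, h] at h1
  rw [inner_add_right, inner_smul_right, inner_smul_right, real_inner_comm u v, h] at h2
  constructor
  · rcases mul_eq_zero.1 (by linarith : s * inner ℝ u u = 0) with h3 | h3
    · exact h3
    · exact absurd h3 hu2.ne'
  · rcases mul_eq_zero.1 (by linarith : t * inner ℝ v v = 0) with h3 | h3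
    · exact h3
    · exact absurd h3 hv2.ne'

theorem to_cut (u v : E) (h : ∀ s t : ℝ, s • u + t • v = 0 → s = 0 ∧ t = 0) (T : Fin 3 → E)
    (N : ℕ) (hT : GT (G u v) (TriSet T) N) : CanCut T N := by
  obtain ⟨K, hK, hU, hD⟩ := hT
  choose f hf using hK
  have hAI : AffineIndependent ℝ ![(0 : E), u, v] := by
    rw [affineIndependent_iff_of_fintype]
    intro w hw hsum
    rw [Finset.univ.weightedVSub_eq_linear_combination hw, Fin.sum_univ_three] at hsum
    rw [Fin.sum_univ_three] at hw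
    simp only [Matrix.cons_val_zero, Matrix.cons_val_one, Matrix.cons_val, smul_zero,
      zero_add] at hsum
    obtain ⟨h1, h2⟩ := h _ _ hsum
    intro i
    fin_cases i
    · show w 0 = 0
      linarith
    · exact h1
    · exact h2
  have hP : ∀ i, TriSet (fun k => f i (![(0 : E), u, v] k)) = K i := by
    intro i
    rw [← hf i, cell_hull u v h]
    unfold TriSet
    have h1 := (f i).toRealAffineIsometryEquiv.toAffineEquiv.toAffineMap.image_convexHull
      (Set.range ![(0 : E), u, v])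
    have h2 : Set.range (fun k => f i (![(0 : E), u, v] k)) =
        f i '' Set.range ![(0 : E), u, v] := by
      rw [← Set.range_comp]
      rfl
    rw [h2]
    exact h1.symm
  refine ⟨fun i k => f i (![(0 : E), u, v] k), ?_, ?_, ?_, ?_⟩
  · intro i
    exact hAI.map' (f i).toRealAffineIsometryEquiv.toAffineEquiv.toAffineMap (f i).injective
  · intro i j
    refine ⟨(f i).symm.trans (f j), ?_⟩
    rw [hP, hP, ← hf i, ← hf j]
    ext w
    constructor
    · rintro ⟨_, ⟨z, hz, rfl⟩, rfl⟩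
      exact ⟨z, hz, by simp⟩
    · rintro ⟨z, hz, rfl⟩
      exact ⟨f i z, ⟨z, hz, rfl⟩, by simp⟩
  · rw [← hU]
    exact Set.iUnion_congr hP
  · intro i j hij
    rw [hP, hP]
    exact hD i j hij

theorem onb (a b : E) (ha : ‖a‖ = 1) (hb : ‖b‖ = 1) (hab : inner ℝ a b = 0) :
    ∃ B : OrthonormalBasis (Fin 2) ℝ E, B 0 = a ∧ B 1 = b := by
  have hon : Orthonormal ℝ ![a, b] := by
    rw [orthonormal_iff_ite]
    intro i j
    fin_cases i <;> fin_cases j
    · simp [ha]
    · simp [hab]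
    · simp [real_inner_comm, hab]
    · simp [hb]
  have hsp : ⊤ ≤ Submodule.span ℝ (Set.range ![a, b]) := by
    rw [hon.linearIndependent.span_eq_top_of_card_eq_finrank (by simp)]
  refine ⟨OrthonormalBasis.mk hon hsp, ?_, ?_⟩
  · rw [OrthonormalBasis.coe_mk]; rfl
  · rw [OrthonormalBasis.coe_mk]; rfl

theorem exists_rot (X Y X' Y' : E) (h : inner ℝ X Y = 0) (h' : inner ℝ X' Y' = 0) (hX : X ≠ 0)
    (hY : Y ≠ 0) (e1 : ‖X'‖ = ‖X‖) (e2 : ‖Y'‖ = ‖Y‖) :
    ∃ R : E ≃ₗᵢ[ℝ] E, R X = X' ∧ R Y = Y' := by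
  have nX : ‖X‖ ≠ 0 := norm_ne_zero_iff.2 hX
  have nY : ‖Y‖ ≠ 0 := norm_ne_zero_iff.2 hY
  obtain ⟨B, B0, B1⟩ := onb (‖X‖⁻¹ • X) (‖Y‖⁻¹ • Y)
    (by rw [norm_smul, norm_inv, norm_norm, inv_mul_cancel₀ nX])
    (by rw [norm_smul, norm_inv, norm_norm, inv_mul_cancel₀ nY])
    (by rw [inner_smul_left, inner_smul_right, h]; simp)
  obtain ⟨B', B0', B1'⟩ := onb (‖X‖⁻¹ • X') (‖Y‖⁻¹ • Y')
    (by rw [norm_smul, norm_inv, norm_norm, e1, inv_mul_cancel₀ nX])
    (by rw [norm_smul, norm_inv, norm_norm, e2, inv_mul_cancel₀ nY])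
    (by rw [inner_smul_left, inner_smul_right, h']; simp)
  refine ⟨B.equiv B' (Equiv.refl _), ?_, ?_⟩
  · have h1 := B.equiv_apply_basis B' (Equiv.refl _) 0
    rw [B0, Equiv.refl_apply, B0', map_smul] at h1
    exact smul_right_injective E (inv_ne_zero nX) h1
  · have h1 := B.equiv_apply_basis B' (Equiv.refl _) 1
    rw [B1, Equiv.refl_apply, B1', map_smul] at h1
    exact smul_right_injective E (inv_ne_zero nY) h1

theorem push (s : Set E) (x : E) (hx : x ∈ interior s) (w : E) :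
    ∃ t : ℝ, 0 < t ∧ x + t • w ∈ s := by
  have h1 : Filter.Tendsto (fun t : ℝ => x + t • w) (nhdsWithin 0 (Set.Ioi 0)) (nhds x) := by
    have : Filter.Tendsto (fun t : ℝ => x + t • w) (nhds 0) (nhds (x + (0 : ℝ) • w)) := by
      apply Continuous.tendsto
      fun_prop
    rw [zero_smul, add_zero] at this
    exact this.mono_left nhdsWithin_le_nhds
  have h2 : ∀ᶠ t : ℝ in nhdsWithin 0 (Set.Ioi 0), x + t • w ∈ s :=
    h1.eventually (mem_interior_iff_mem_nhds.1 hx)
  have h3 : ∀ᶠ t : ℝ in nhdsWithin 0 (Set.Ioi 0), 0 < t := self_mem_nhdsWithin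
  obtain ⟨t, ht⟩ := (Filter.Eventually.and h2 h3).exists
  exact ⟨t, ht.2, ht.1⟩

/-- a triangle with a right angle and legs in the ratio `p : q` can be cut into `p ^ 2 + q ^ 2`
congruent triangles -/
theorem right_cut (C B A : E) (p q : ℕ) (hp : 0 < p) (hq : 0 < q)
    (hort : inner ℝ (B - C) (A - C) = 0) (hB : B ≠ C) (hA : A ≠ C)
    (hratio : (q : ℝ) * ‖B - C‖ = p * ‖A - C‖) : CanCut ![C, B, A] (p ^ 2 + q ^ 2) := by
  obtain ⟨X, hX⟩ : ∃ X, X = B - C := ⟨_, rfl⟩
  obtain ⟨Y, hY⟩ : ∃ Y, Y = A - C := ⟨_, rfl⟩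
  rw [← hX, ← hY] at hort hratio
  have X0 : X ≠ 0 := by rw [hX]; exact sub_ne_zero.2 hB
  have Y0 : Y ≠ 0 := by rw [hY]; exact sub_ne_zero.2 hA
  have hp' : (0 : ℝ) < p := by exact_mod_cast hp
  have hq' : (0 : ℝ) < q := by exact_mod_cast hq
  obtain ⟨a, ha⟩ : ∃ a : ℝ, a = p := ⟨_, rfl⟩
  obtain ⟨b, hb⟩ : ∃ b : ℝ, b = q := ⟨_, rfl⟩
  rw [← ha] at hp' hratio
  rw [← hb] at hq' hratio
  obtain ⟨n, hn⟩ : ∃ n : ℝ, n = a ^ 2 + b ^ 2 := ⟨_, rfl⟩
  have hn0 : 0 < n := by rw [hn]; positivity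
  obtain ⟨R, hRX, hRY⟩ := exists_rot X Y (-(a / b) • Y) ((b / a) • X) hort
    (by rw [inner_smul_left, inner_smul_right, real_inner_comm, hort]; simp) X0 Y0
    (by
      rw [norm_smul, norm_neg, Real.norm_of_nonneg (by positivity)]
      field_simp
      linarith)
    (by
      rw [norm_smul, Real.norm_of_nonneg (by positivity)]
      field_simp
      linarith)
  obtain ⟨u1, hu1⟩ : ∃ u1 : E, u1 = (a / n) • X - (a / n) • Y := ⟨_, rfl⟩
  obtain ⟨v1, hv1⟩ : ∃ v1 : E, v1 = -(b ^ 2 / (a * n)) • X - (a / n) • Y := ⟨_, rfl⟩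
  obtain ⟨u2, hu2⟩ : ∃ u2 : E, u2 = -(b / n) • X - (a ^ 2 / (b * n)) • Y := ⟨_, rfl⟩
  obtain ⟨v2, hv2⟩ : ∃ v2 : E, v2 = (b / n) • Y - (b / n) • X := ⟨_, rfl⟩
  obtain ⟨H, hH⟩ : ∃ H : E, H = C + (b ^ 2 / n) • X + (a ^ 2 / n) • Y := ⟨_, rfl⟩
  have hR1 : R u1 = u2 := by
    rw [hu1, hu2, map_sub, map_smul, map_smul, hRX, hRY, smul_smul, smul_smul]
    have e1 : a / n * -(a / b) = -(a ^ 2 / (b * n)) := by field_simp
    have e2 : a / n * (b / a) = b / n := by field_simp
    rw [e1, e2]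
    module
  have hR2 : R v1 = v2 := by
    rw [hv1, hv2, map_sub, map_smul, map_smul, hRX, hRY, smul_smul, smul_smul]
    have e1 : -(b ^ 2 / (a * n)) * -(a / b) = b / n := by field_simp
    have e2 : a / n * (b / a) = b / n := by field_simp
    rw [e1, e2]
  have hXX : b ^ 2 * inner ℝ X X = a ^ 2 * inner ℝ Y Y := by
    rw [real_inner_self_eq_norm_sq, real_inner_self_eq_norm_sq]
    have : (b * ‖X‖) ^ 2 = (a * ‖Y‖) ^ 2 := by rw [hratio]
    linarith [this, mul_pow b ‖X‖ 2, mul_pow a ‖Y‖ 2]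
  have hYX : inner ℝ Y X = 0 := by rw [real_inner_comm]; exact hort
  have hXXp : (0 : ℝ) < inner ℝ X X := real_inner_self_pos.2 X0
  have hYYp : (0 : ℝ) < inner ℝ Y Y := real_inner_self_pos.2 Y0
  have ho : inner ℝ u1 v1 = 0 := by
    rw [hu1, hv1]
    simp only [inner_sub_left, inner_sub_right, inner_smul_left, inner_smul_right, hort, hYX]
    simp only [conj_trivial]
    field_simp
    linear_combination (-1 : ℝ) * hXX
  have hu10 : u1 ≠ 0 := by
    intro h0
    have h1 : inner ℝ X u1 = 0 := by rw [h0, inner_zero_right]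
    rw [hu1, inner_sub_right, inner_smul_right, inner_smul_right, hort] at h1
    have : 0 < a / n * inner ℝ X X := by positivity
    linarith
  have hv10 : v1 ≠ 0 := by
    intro h0
    have h1 : inner ℝ Y v1 = 0 := by rw [h0, inner_zero_right]
    rw [hv1, inner_sub_right, inner_smul_right, inner_smul_right, hYX] at h1
    have : 0 < a / n * inner ℝ Y Y := by positivity
    linarith
  have i1 := indep_orth ho hu10 hv10
  have i2 : ∀ s t : ℝ, s • u2 + t • v2 = 0 → s = 0 ∧ t = 0 := by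
    intro s t hst
    apply i1
    apply R.injective
    rw [map_add, map_smul, map_smul, hR1, hR2, hst, map_zero]
  have g1 : a • u1 + H = B := by
    have : B = C + X := by rw [hX]; abel
    rw [this, hu1, hH, hn]
    have e1 : a / (a ^ 2 + b ^ 2) * a + b ^ 2 / (a ^ 2 + b ^ 2) = 1 := by field_simp
    match_scalars <;> first | rfl | linear_combination e1 | ring
  have g2 : a • v1 + H = C := by
    rw [hv1, hH]
    match_scalars
    · field_simp; ring
    · ring
    · rfl
  have g3 : b • u2 + H = C := by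
    rw [hu2, hH]
    match_scalars
    · ring
    · field_simp; ring
    · rfl
  have g4 : b • v2 + H = A := by
    have : A = C + Y := by rw [hY]; abel
    rw [this, hv2, hH, hn]
    have e1 : b / (a ^ 2 + b ^ 2) * b + a ^ 2 / (a ^ 2 + b ^ 2) = 1 := by field_simp; ring
    match_scalars <;> first | rfl | linear_combination e1 | ring
  obtain ⟨k, hk⟩ : ∃ k, p = k + 1 := ⟨p - 1, by omega⟩
  obtain ⟨m, hm⟩ : ∃ m, q = m + 1 := ⟨q - 1, by omega⟩
  have t1 : GT (G u1 v1) (convexHull ℝ (Set.range ![H, B, C])) (p ^ 2) := by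
    have h1 := GT.map (ch H u1 v1 i1) (chart_cell H u1 v1 i1) (tri_pos 0 0 k)
    rw [← hk, tri_hull H u1 v1 i1 _ (by rw [← ha]; exact hp'), ← ha, g1, g2] at h1
    exact h1
  have hcell : Cell u2 v2 = R '' Cell u1 v1 := by
    unfold Cell
    rw [Set.image_image]
    apply Set.image_congr
    intro z _
    rw [L_apply, L_apply, map_add, map_smul, map_smul, hR1, hR2]
  have t2 : GT (G u1 v1) (convexHull ℝ (Set.range ![H, C, A])) (q ^ 2) := by
    have h1 := GT.map (ch H u2 v2 i2) (chart_cell H u2 v2 i2) (tri_pos 0 0 m)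
    rw [← hm, tri_hull H u2 v2 i2 _ (by rw [← hb]; exact hq'), ← hb, g3, g4] at h1
    refine GT.mono ?_ h1
    rintro K ⟨f, rfl⟩
    refine ⟨R.toIsometryEquiv.trans f, ?_⟩
    rw [hcell, Set.image_image]
    rfl
  have hw : (0 : ℝ) < inner ℝ v2 v2 := by
    apply real_inner_self_pos.2
    rw [← hR2]
    intro h0
    exact hv10 (R.injective (by rw [h0, map_zero]))
  have w1 : inner ℝ v2 (C - H) = 0 := by
    have : C - H = b • u2 := by rw [← g3]; abel
    rw [this, inner_smul_right, ← hR1, ← hR2, R.inner_map_map, real_inner_comm, ho, mul_zero]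
  have w2 : inner ℝ v2 (B - H) ≤ 0 := by
    have : B - H = (-(a ^ 2 / b)) • v2 := by
      have e : B - H = a • u1 := by rw [← g1]; abel
      rw [e, hu1, hv2]
      match_scalars <;> field_simp
    rw [this, inner_smul_right]
    have : 0 < a ^ 2 / b * inner ℝ v2 v2 := by positivity
    linarith
  have w3 : 0 ≤ inner ℝ v2 (A - H) := by
    have : A - H = b • v2 := by rw [← g4]; abel
    rw [this, inner_smul_right]
    positivity
  have hle : ∀ x ∈ convexHull ℝ (Set.range ![H, B, C]), inner ℝ v2 (x - H) ≤ 0 := by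
    intro x hx
    obtain ⟨α, β, γ, h0, h1, h2, h3, rfl⟩ := (hull_iff _ _ _ _).1 hx
    have e : α • H + β • B + γ • C - H = β • (B - H) + γ • (C - H) := by
      have : α = 1 - β - γ := by linarith
      rw [this]; module
    rw [e, inner_add_right, inner_smul_right, inner_smul_right, w1]
    nlinarith
  have hge : ∀ x ∈ convexHull ℝ (Set.range ![H, C, A]), 0 ≤ inner ℝ v2 (x - H) := by
    intro x hx
    obtain ⟨α, β, γ, h0, h1, h2, h3, rfl⟩ := (hull_iff _ _ _ _).1 hx
    have e : α • H + β • C + γ • A - H = β • (C - H) + γ • (A - H) := by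
      have : α = 1 - β - γ := by linarith
      rw [this]; module
    rw [e, inner_add_right, inner_smul_right, inner_smul_right, w1]
    nlinarith
  have hdis : Disjoint (interior (convexHull ℝ (Set.range ![H, B, C])))
      (interior (convexHull ℝ (Set.range ![H, C, A]))) := by
    rw [Set.disjoint_left]
    intro x hx hx'
    obtain ⟨t, ht, h1⟩ := push _ x hx v2
    have h2 := hle _ h1
    have h3 := hge _ (interior_subset hx')
    have e : x + t • v2 - H = (x - H) + t • v2 := by module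
    rw [e, inner_add_right, inner_smul_right] at h2
    nlinarith
  have hHB : H = (b ^ 2 / n) • B + (a ^ 2 / n) • A := by
    rw [hH, hX, hY, hn]
    match_scalars <;> field_simp <;> ring
  have hset : convexHull ℝ (Set.range ![H, B, C]) ∪ convexHull ℝ (Set.range ![H, C, A]) =
      TriSet ![C, B, A] := by
    unfold TriSet
    ext x
    rw [Set.mem_union, hull_iff, hull_iff, hull_iff]
    have hsum : b ^ 2 / n + a ^ 2 / n = 1 := by rw [hn]; field_simp; ring
    constructor
    · rintro (⟨α, β, γ, h0, h1, h2, h3, rfl⟩ | ⟨α, β, γ, h0, h1, h2, h3, rfl⟩)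
      · refine ⟨γ, β + α * (b ^ 2 / n), α * (a ^ 2 / n), h2, by positivity, by positivity, ?_, ?_⟩
        · linear_combination h3 + α * hsum
        · rw [hHB]; module
      · refine ⟨β, α * (b ^ 2 / n), γ + α * (a ^ 2 / n), h1, by positivity, by positivity, ?_, ?_⟩
        · linear_combination h3 + α * hsum
        · rw [hHB]; module
    · rintro ⟨α, β, γ, h0, h1, h2, h3, rfl⟩
      rcases le_total (b ^ 2 * γ) (a ^ 2 * β) with h4 | h4
      · left
        refine ⟨γ * n / a ^ 2, β - γ * b ^ 2 / a ^ 2, α, by positivity, ?_, h0, ?_, ?_⟩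
        · rw [sub_nonneg, div_le_iff₀ (by positivity)]
          linarith
        · rw [hn]; field_simp; linear_combination a ^ 2 * h3
        · rw [hHB]
          match_scalars <;> field_simp <;> ring
      · right
        refine ⟨β * n / b ^ 2, α, γ - β * a ^ 2 / b ^ 2, by positivity, h0, ?_, ?_, ?_⟩
        · rw [sub_nonneg, div_le_iff₀ (by positivity)]
          linarith
        · rw [hn]; field_simp; linear_combination b ^ 2 * h3
        · rw [hHB]
          match_scalars <;> field_simp <;> ring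
  have t := GT.union t1 t2 hdis
  rw [hset] at t
  exact to_cut u1 v1 i1 _ _ t

end Pool.Agent.V1146.SQ.Right
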